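import Pool.Agent.TH38.CX.Defs
import Pool.Agent.H919R4.AS.Ext

/-!
COND-EXP: for a subgroup `H` of `G` the inclusion `C*_r(H) → C*_r(G)` and the conditional
expectation `C*_r(G) → C*_r(H)` (job 4073).
-/

set_option autoImplicit false

open scoped Matrix ENNReal
open Filter Topology

namespace Pool.Agent.TH38.CX

open Pool.Agent.H919R4.ZS

namespace Cond

noncomputable section

lemma two_pos : 0 < (2 : ℝ≥0∞).toReal := by norm_num

variable {G : Type} [Group G] (H : Subgroup G)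

/-! ### Restriction to a right coset -/

lemma inj_mul (g : G) : Function.Injective (fun h : H => (h : G) * g) :=
  fun _ _ h => Subtype.ext (mul_right_cancel h)

lemma memlp_res (g : G) {f : G → ℂ} (hf : Memℓp f 2) : Memℓp (fun h : H => f (h * g)) 2 := by
  rw [memℓp_gen_iff two_pos] at hf ⊢
  exact hf.comp_injective (inj_mul H g)

/-- `(R_g f)(h) = f(h g)` as a linear map -/
def resL (g : G) : L2 G →ₗ[ℂ] L2 H where
  toFun f := ⟨fun h : H => f (h * g), memlp_res H g (lp.memℓp f)⟩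
  map_add' _ _ := rfl
  map_smul' _ _ := rfl

lemma norm_resL (g : G) (f : L2 G) : ‖resL H g f‖ ≤ ‖f‖ := by
  refine lp.norm_le_of_tsum_le two_pos (norm_nonneg f) ?_
  rw [lp.norm_rpow_eq_tsum two_pos f]
  have hs : Summable (fun x => ‖f x‖ ^ (2 : ℝ≥0∞).toReal) :=
    (memℓp_gen_iff two_pos).1 (lp.memℓp f)
  exact tsum_comp_le_tsum_of_inj hs (fun x => by positivity) (inj_mul H g)

/-- `(R_g f)(h) = f(h g)` -/
def res (g : G) : L2 G →L[ℂ] L2 H :=
  (resL H g).mkContinuous 1 (fun f => by rw [one_mul]; exact norm_resL H g f)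

@[simp] lemma res_apply (g : G) (f : L2 G) (h : H) : res H g f h = f (h * g) := rfl

/-! ### Extension by zero -/

open Classical in
/-- extension by zero -/
def ext0 (f : H → ℂ) (g : G) : ℂ := if hg : g ∈ H then f ⟨g, hg⟩ else 0

lemma ext0_coe (f : H → ℂ) (h : H) : ext0 H f h = f h := by
  rw [ext0, dif_pos h.2]

lemma ext0_not (f : H → ℂ) {g : G} (hg : g ∉ H) : ext0 H f g = 0 := by
  rw [ext0, dif_neg hg]

lemma hasSum_ext0 (f : L2 H) :
    HasSum (fun g => ‖ext0 H f g‖ ^ (2 : ℝ≥0∞).toReal) (‖f‖ ^ (2 : ℝ≥0∞).toReal) := by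
  have h1 := lp.hasSum_norm two_pos f
  have h2 : ∀ x ∉ Set.range (fun h : H => (h : G)),
      (fun g => ‖ext0 H f g‖ ^ (2 : ℝ≥0∞).toReal) x = 0 := by
    intro x hx
    have : x ∉ H := fun h => hx ⟨⟨x, h⟩, rfl⟩
    change ‖ext0 H f x‖ ^ (2 : ℝ≥0∞).toReal = 0
    rw [ext0_not H _ this, norm_zero, Real.zero_rpow two_pos.ne']
  rw [← (Subtype.val_injective : Function.Injective (fun h : H => (h : G))).hasSum_iff h2]
  convert h1 using 2 with h
  change ‖ext0 H f h‖ ^ (2 : ℝ≥0∞).toReal = _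
  rw [ext0_coe]

lemma memlp_ext0 (f : L2 H) : Memℓp (ext0 H f) 2 := by
  rw [memℓp_gen_iff two_pos]
  exact (hasSum_ext0 H f).summable

/-- extension by zero as a linear map -/
def extL : L2 H →ₗ[ℂ] L2 G where
  toFun f := ⟨ext0 H f, memlp_ext0 H f⟩
  map_add' f f' := by
    refine Subtype.ext (funext fun g => ?_)
    change ext0 H (f + f' : L2 H) g = ext0 H f g + ext0 H f' g
    by_cases hg : g ∈ H
    · simp only [ext0, dif_pos hg]; rfl
    · simp only [ext0, dif_neg hg, add_zero]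
  map_smul' c f := by
    refine Subtype.ext (funext fun g => ?_)
    change ext0 H (c • f : L2 H) g = c * ext0 H f g
    by_cases hg : g ∈ H
    · simp only [ext0, dif_pos hg]; rfl
    · simp only [ext0, dif_neg hg, mul_zero]

lemma norm_extL (f : L2 H) : ‖extL H f‖ ≤ ‖f‖ := by
  refine lp.norm_le_of_tsum_le two_pos (norm_nonneg f) ?_
  exact le_of_eq (hasSum_ext0 H f).tsum_eq

/-- extension by zero as a bounded operator -/
def ext : L2 H →L[ℂ] L2 G :=
  (extL H).mkContinuous 1 (fun f => by rw [one_mul]; exact norm_extL H f)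

lemma ext_apply (f : L2 H) (g : G) : ext H f g = ext0 H f g := rfl

lemma res_ext (f : L2 H) : res H 1 (ext H f) = f := by
  refine Subtype.ext (funext fun h => ?_)
  change ext0 H f ((h : G) * 1) = f h
  rw [mul_one, ext0_coe]

/-! ### The norm by right cosets -/

/-- `G = ⊔ H t` -/
def cos : (G ⧸ H) × H ≃ G :=
  Equiv.ofBijective (fun p => (p.2 : G) * (p.1.out)⁻¹) (by
    constructor
    · rintro ⟨q, h⟩ ⟨q', h'⟩ he
      change (h : G) * (q.out)⁻¹ = (h' : G) * (q'.out)⁻¹ at he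
      have h1 : q = q' := by
        have h2 : q.out * (h : G)⁻¹ = q'.out * (h' : G)⁻¹ := by
          have := congrArg (fun x => x⁻¹) he
          simpa using this
        have h3 : (QuotientGroup.mk (q.out * ((h⁻¹ : H) : G)) : G ⧸ H) = q := by
          rw [QuotientGroup.mk_mul_of_mem _ (h⁻¹).2]
          exact Quotient.out_eq' _
        have h4 : (QuotientGroup.mk (q'.out * ((h'⁻¹ : H) : G)) : G ⧸ H) = q' := by
          rw [QuotientGroup.mk_mul_of_mem _ (h'⁻¹).2]
          exact Quotient.out_eq' _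
        rw [← h3, ← h4]
        exact congrArg _ h2
      subst h1
      rw [Prod.mk.injEq]
      exact ⟨rfl, Subtype.ext (mul_right_cancel he)⟩
    · intro g
      have h1 : (QuotientGroup.mk ((QuotientGroup.mk g⁻¹ : G ⧸ H).out) : G ⧸ H) =
          QuotientGroup.mk g⁻¹ := Quotient.out_eq' _
      rw [eq_comm, QuotientGroup.eq, inv_inv] at h1
      refine ⟨(QuotientGroup.mk g⁻¹, ⟨_, h1⟩), ?_⟩
      change g * _ * _ = g
      rw [mul_inv_cancel_right])

lemma cos_apply (q : G ⧸ H) (h : H) : cos H (q, h) = (h : G) * (q.out)⁻¹ := rfl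

lemma hasSum_cos (f : L2 G) :
    HasSum (fun q : G ⧸ H => ‖res H (q.out)⁻¹ f‖ ^ (2 : ℝ≥0∞).toReal)
      (‖f‖ ^ (2 : ℝ≥0∞).toReal) := by
  have h1 := lp.hasSum_norm two_pos f
  rw [← (cos H).hasSum_iff] at h1
  exact h1.prod_fiberwise (fun q => lp.hasSum_norm two_pos (res H (q.out)⁻¹ f))

/-! ### The relation -/

/-- `T'` acts on every right coset of `H` as `T` -/
def Rel (T : L2 H →L[ℂ] L2 H) (T' : L2 G →L[ℂ] L2 G) : Prop :=
  ∀ (g : G) (f : L2 G), res H g (T' f) = T (res H g f)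

lemma rel_norm {T : L2 H →L[ℂ] L2 H} {T' : L2 G →L[ℂ] L2 G} (h : Rel H T T') : ‖T'‖ ≤ ‖T‖ := by
  refine ContinuousLinearMap.opNorm_le_bound _ (norm_nonneg _) fun f => ?_
  have h1 := hasSum_cos H (T' f)
  have h2 := (hasSum_cos H f).mul_left (‖T‖ ^ (2 : ℝ≥0∞).toReal)
  have h3 : ‖T' f‖ ^ (2 : ℝ≥0∞).toReal ≤ ‖T‖ ^ (2 : ℝ≥0∞).toReal * ‖f‖ ^ (2 : ℝ≥0∞).toReal := by
    refine hasSum_le (fun q => ?_) h1 h2
    rw [h, ← Real.mul_rpow (norm_nonneg _) (norm_nonneg _)]
    exact Real.rpow_le_rpow (norm_nonneg _) (T.le_opNorm _) two_pos.le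
  rw [← Real.mul_rpow (norm_nonneg _) (norm_nonneg _)] at h3
  exact (Real.rpow_le_rpow_iff (norm_nonneg _) (by positivity) two_pos).1 h3

/-- the graph -/
def Gr : Subring ((L2 H →L[ℂ] L2 H) × (L2 G →L[ℂ] L2 G)) where
  carrier := {p | Rel H p.1 p.2 ∧ p.2 ∈ (redCstar G : Subring (L2 G →L[ℂ] L2 G))}
  mul_mem' := by
    rintro ⟨a, a'⟩ ⟨b, b'⟩ ⟨ha, ha'⟩ ⟨hb, hb'⟩
    refine ⟨fun g f => ?_, Subring.mul_mem _ ha' hb'⟩
    change res H g (a' (b' f)) = a (b (res H g f))
    rw [ha, hb]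
  one_mem' := ⟨fun g f => rfl, Subring.one_mem _⟩
  add_mem' := by
    rintro ⟨a, a'⟩ ⟨b, b'⟩ ⟨ha, ha'⟩ ⟨hb, hb'⟩
    refine ⟨fun g f => ?_, Subring.add_mem _ ha' hb'⟩
    change res H g (a' f + b' f) = a (res H g f) + b (res H g f)
    rw [map_add, ha, hb]
  zero_mem' := by
    refine ⟨fun g f => ?_, Subring.zero_mem _⟩
    change res H g 0 = 0
    rw [map_zero]
  neg_mem' := by
    rintro ⟨a, a'⟩ ⟨ha, ha'⟩
    refine ⟨fun g f => ?_, Subring.neg_mem _ ha'⟩
    change res H g (- a' f) = - a (res H g f)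
    rw [map_neg, ha]

/-- `C*_r(G)` as a set of operators -/
def redSet (G : Type) [Group G] : Set (L2 G →L[ℂ] L2 G) := {T | T ∈ (redCstar G : Subring (Op G))}

lemma isClosed_redSet (G : Type) [Group G] : IsClosed (redSet G) :=
  Subring.isClosed_topologicalClosure (groupRing G)

lemma gen_mem (c : ℂ) (g : G) : c • lregL g ∈ redSet G :=
  Subring.le_topologicalClosure (groupRing G) (Subring.subset_closure ⟨c, g, rfl⟩)

lemma isClosed_Gr : IsClosed (Gr H : Set ((L2 H →L[ℂ] L2 H) × (L2 G →L[ℂ] L2 G))) := by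
  have h1 : (Gr H : Set ((L2 H →L[ℂ] L2 H) × (L2 G →L[ℂ] L2 G))) =
      (⋂ (g : G) (f : L2 G), {p : (L2 H →L[ℂ] L2 H) × (L2 G →L[ℂ] L2 G) |
        res H g (p.2 f) = p.1 (res H g f)}) ∩ Prod.snd ⁻¹' (redSet G) := by
    ext p
    simp only [Set.mem_inter_iff, Set.mem_iInter, Set.mem_ofPred_eq, Set.mem_preimage]
    rfl
  rw [h1]
  refine IsClosed.inter ?_ ?_
  · refine isClosed_iInter fun g => isClosed_iInter fun f => isClosed_eq ?_ ?_
    · fun_prop
    · fun_prop
  · exact (isClosed_redSet G).preimage continuous_snd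

lemma Gr_unique {a : L2 H →L[ℂ] L2 H} {b b' : L2 G →L[ℂ] L2 G} (h : (a, b) ∈ Gr H)
    (h' : (a, b') ∈ Gr H) : b = b' := by
  have h1 := rel_norm H ((Gr H).sub_mem h h').1
  simp only [Prod.mk_sub_mk, sub_self, norm_zero] at h1
  exact sub_eq_zero.1 (norm_le_zero_iff.1 h1)

lemma Gr_lreg (c : ℂ) (h : H) : (c • lregL h, c • lregL (h : G)) ∈ Gr H := by
  refine ⟨fun g f => ?_, ?_⟩
  · change res H g (c • lregL (h : G) f) = c • lregL h (res H g f)
    rw [map_smul]
    congr 1
    refine Subtype.ext (funext fun k => ?_)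
    change f ((h : G)⁻¹ * ((k : G) * g)) = f (((h⁻¹ * k : H) : G) * g)
    rw [Subgroup.coe_mul, Subgroup.coe_inv, mul_assoc]
  · exact gen_mem c (h : G)

/-- the operators with a partner -/
def Fst : Subring (L2 H →L[ℂ] L2 H) := (Gr H).map (RingHom.fst _ _)

lemma mem_Fst {a : L2 H →L[ℂ] L2 H} : a ∈ Fst H ↔ ∃ b, (a, b) ∈ Gr H := by
  constructor
  · rintro ⟨⟨x, y⟩, hx, rfl⟩
    exact ⟨y, hx⟩
  · rintro ⟨b, hb⟩
    exact ⟨(a, b), hb, rfl⟩

lemma isClosed_Fst : IsClosed (Fst H : Set (L2 H →L[ℂ] L2 H)) := by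
  refine isClosed_of_closure_subset fun a ha => ?_
  obtain ⟨s, hs, hlim⟩ := mem_closure_iff_seq_limit.1 ha
  choose x hx using fun n => (mem_Fst H).1 (hs n)
  have hcauchy : CauchySeq x := by
    have h1 : CauchySeq s := hlim.cauchySeq
    rw [Metric.cauchySeq_iff] at h1 ⊢
    intro ε hε
    obtain ⟨N, hN⟩ := h1 ε hε
    refine ⟨N, fun i hi j hj => ?_⟩
    have h2 := hN i hi j hj
    rw [dist_eq_norm] at h2 ⊢
    exact lt_of_le_of_lt (rel_norm H ((Gr H).sub_mem (hx i) (hx j)).1) h2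
  obtain ⟨b, hb⟩ := cauchySeq_tendsto_of_complete hcauchy
  refine (mem_Fst H).2 ⟨b, ?_⟩
  exact (isClosed_Gr H).mem_of_tendsto (hlim.prodMk_nhds hb) (Eventually.of_forall hx)

lemma red_le_Fst : (redCstar H : Subring (L2 H →L[ℂ] L2 H)) ≤ Fst H := by
  refine Subring.topologicalClosure_minimal _ ?_ (isClosed_Fst H)
  refine Subring.closure_le.2 ?_
  rintro _ ⟨c, h, rfl⟩
  exact (mem_Fst H).2 ⟨_, Gr_lreg H c h⟩

/-! ### The conditional expectation -/

/-- `T ↦ R_1 T Z` -/
def cond : (L2 G →L[ℂ] L2 G) →L[ℂ] (L2 H →L[ℂ] L2 H) :=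
  ((ContinuousLinearMap.compL ℂ (L2 H) (L2 G) (L2 H)) (res H 1)).comp
    ((ContinuousLinearMap.compL ℂ (L2 H) (L2 G) (L2 G)).flip (ext H))

lemma cond_apply (T : L2 G →L[ℂ] L2 G) (f : L2 H) : cond H T f = res H 1 (T (ext H f)) := rfl

lemma cond_lreg_mem (h : H) : cond H (lregL (h : G)) = lregL h := by
  refine ContinuousLinearMap.ext fun f => Subtype.ext (funext fun k => ?_)
  change ext0 H f ((h : G)⁻¹ * ((k : G) * 1)) = f (h⁻¹ * k)
  rw [mul_one, ← Subgroup.coe_inv, ← Subgroup.coe_mul, ext0_coe]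

lemma cond_lreg_not {g : G} (hg : g ∉ H) : cond H (lregL g) = 0 := by
  refine ContinuousLinearMap.ext fun f => Subtype.ext (funext fun k => ?_)
  change ext0 H f (g⁻¹ * ((k : G) * 1)) = 0
  refine ext0_not H _ fun h => hg ?_
  rw [mul_one] at h
  have h1 : g⁻¹ ∈ H := (Subgroup.mul_mem_cancel_right H k.2).1 h
  simpa using H.inv_mem h1

lemma cond_mem (T : L2 G →L[ℂ] L2 G) (hT : T ∈ closure (Set.range (Pool.Agent.H496R3.ZS.integ G G))) :
    cond H T ∈ (redCstar H : Subring (L2 H →L[ℂ] L2 H)) := by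
  have hcl : IsClosed {T : L2 G →L[ℂ] L2 G | cond H T ∈ (redCstar H : Subring (L2 H →L[ℂ] L2 H))} :=
    (Subring.isClosed_topologicalClosure (groupRing H)).preimage (cond H).continuous
  refine closure_minimal ?_ hcl hT
  rintro _ ⟨x, rfl⟩
  change cond H _ ∈ (redCstar H : Subring (L2 H →L[ℂ] L2 H))
  refine MonoidAlgebra.induction_linear x ?_ ?_ ?_
  · rw [map_zero, map_zero]; exact Subring.zero_mem _
  · intro a b ha hb
    rw [map_add, map_add]; exact Subring.add_mem _ ha hb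
  · intro g c
    have h1 : Pool.Agent.H496R3.ZS.integ G G (MonoidAlgebra.single g c) = c • lregL g := by
      rw [Pool.Agent.H496R3.ZS.integ, MonoidAlgebra.lift_single]
      rfl
    rw [h1, map_smul]
    by_cases hg : g ∈ H
    · have h2 := cond_lreg_mem H ⟨g, hg⟩
      change cond H (lregL g) = _ at h2
      rw [h2]
      exact gen_mem c _
    · rw [cond_lreg_not H hg, smul_zero]
      exact Subring.zero_mem _

lemma lregL_ext (h : H) (f : L2 H) : lregL (h : G) (ext H f) = ext H (lregL h f) := by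
  refine Subtype.ext (funext fun g => ?_)
  change ext0 H f ((h : G)⁻¹ * g) = ext0 H (lregL h f) g
  by_cases hg : g ∈ H
  · have h1 := ext0_coe H f (h⁻¹ * ⟨g, hg⟩)
    have h2 := ext0_coe H (lregL h f) ⟨g, hg⟩
    exact h1.trans h2.symm
  · rw [ext0_not H _ hg, ext0_not]
    intro h1
    exact hg ((Subgroup.mul_mem_cancel_left H (H.inv_mem h.2)).1 h1)

lemma incl_single (h : H) (r : ℤ) :
    incl H (MonoidAlgebra.single h r) = MonoidAlgebra.single (h : G) r := by
  simp [incl]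

lemma L_ext (a : MonoidAlgebra ℤ H) (f : L2 H) : L (incl H a) (ext H f) = ext H (L a f) := by
  refine MonoidAlgebra.induction_linear a ?_ ?_ ?_
  · rw [map_zero, map_zero, map_zero]
    change 0 = ext H 0
    rw [map_zero]
  · intro a b ha hb
    rw [map_add, map_add, map_add]
    change L (incl H a) (ext H f) + L (incl H b) (ext H f) = ext H (L a f + L b f)
    rw [ha, hb, map_add]
  · intro h r
    rw [incl_single, L_single, L_single]
    change r • (lregL (h : G) (ext H f)) = ext H (r • lregL h f)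
    rw [lregL_ext, map_zsmul]

end

end Cond

open Cond in
theorem exists_cond {G : Type} [Group G] (H : Subgroup G) :
    ∃ (ψ : RedC H →+* RedC G) (e : RedC G →+ RedC H),
      ψ.comp (toRed H) = (toRed G).comp (incl H) ∧ (∀ x, e (ψ x) = x) ∧
      ∀ (x : RedC G) (a : MonoidAlgebra ℤ H), e (x * toRed G (incl H a)) = e x * toRed H a := by
  choose t ht using fun x : RedC H => (mem_Fst H).1 (red_le_Fst H (Subtype.property x))
  have hadd : ∀ a b, t (a + b) = t a + t b := fun a b =>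
    Gr_unique H (ht (a + b)) ((Gr H).add_mem (ht a) (ht b))
  have hmul : ∀ a b, t (a * b) = t a * t b := fun a b =>
    Gr_unique H (ht (a * b)) ((Gr H).mul_mem (ht a) (ht b))
  have hone : t 1 = 1 := Gr_unique H (ht 1) (Gr H).one_mem
  have hzero : t 0 = 0 := Gr_unique H (ht 0) (Gr H).zero_mem
  let ψ : RedC H →+* RedC G :=
    { toFun := fun x => ⟨t x, (ht x).2⟩
      map_one' := Subtype.ext hone
      map_mul' := fun a b => Subtype.ext (hmul a b)
      map_zero' := Subtype.ext hzero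
      map_add' := fun a b => Subtype.ext (hadd a b) }
  let e : RedC G →+ RedC H :=
    { toFun := fun x => ⟨cond H (valR x), cond_mem H _ (Pool.Agent.H919R4.AS.valR_mem x)⟩
      map_zero' := Subtype.ext (by
        change cond H (valR 0) = 0
        rw [map_zero, map_zero])
      map_add' := fun a b => Subtype.ext (by
        change cond H (valR (a + b)) = cond H (valR a) + cond H (valR b)
        rw [map_add, map_add]) }
  refine ⟨ψ, e, ?_, ?_, ?_⟩
  · refine RingHom.ext fun a => Subtype.ext ?_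
    change t (toRed H a) = L (incl H a)
    refine MonoidAlgebra.induction_linear a ?_ ?_ ?_
    · rw [map_zero, map_zero, map_zero, hzero]
    · intro x y hx hy
      rw [map_add, map_add, map_add, hadd, hx, hy]
    · intro h r
      refine Gr_unique H (ht _) ?_
      rw [incl_single, L_single]
      have h1 := Gr_lreg H (r : ℂ) h
      rw [Int.cast_smul_eq_zsmul, Int.cast_smul_eq_zsmul, ← L_single] at h1
      exact h1
  · intro x
    refine Subtype.ext ?_
    change cond H (t x) = _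
    refine ContinuousLinearMap.ext fun f => ?_
    have h1 := (ht x).1 1 (ext H f)
    rw [res_ext] at h1
    exact h1
  · intro x a
    refine Subtype.ext ?_
    change cond H (valR (x * toRed G (incl H a))) = cond H (valR x) * L a
    refine ContinuousLinearMap.ext fun f => ?_
    rw [map_mul, coe_toRed]
    change res H 1 (valR x (L (incl H a) (ext H f))) = res H 1 (valR x (ext H (L a f)))
    rw [L_ext]

end Pool.Agent.TH38.CX
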