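import Pool.Agent.TH38.CX.Defs

/-!
Mapping cones: a resolution of the cokernel of an injective homomorphism of `ℤ[G]`-modules, and
the long exact sequence after a change of rings.
-/

set_option autoImplicit false
set_option linter.unusedSectionVars false

open scoped Matrix

namespace Pool.Agent.TH38.CX

open Pool.Agent.H919R4.ZS
open Pool.Agent.TH38.ZT (dep_seq)

noncomputable section

lemma rows {A B C : Type} [Fintype B] [Fintype C] {S : Type} [Ring S] (D : Matrix B C S)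
    (N : Matrix A C S) (h : ∀ k, ∃ y, y ᵥ* D = N k) : ∃ s : Matrix A B S, s * D = N := by
  choose s hs using h
  exact ⟨s, funext fun k => hs k⟩

variable {G : Type} [Group G]
variable {M : Type} [AddCommGroup M] [Module (MonoidAlgebra ℤ G) M]
variable {M' : Type} [AddCommGroup M'] [Module (MonoidAlgebra ℤ G) M']
variable {M'' : Type} [AddCommGroup M''] [Module (MonoidAlgebra ℤ G) M'']

namespace Res

/-- the augmentation -/
def ev (R : Res G M) (x : R.ι 0 → MonoidAlgebra ℤ G) : M := ∑ j, x j • R.aug j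

lemma ev_add (R : Res G M) (x y : R.ι 0 → MonoidAlgebra ℤ G) :
    R.ev (x + y) = R.ev x + R.ev y := by
  simp [ev, add_smul, Finset.sum_add_distrib]

lemma ev_neg (R : Res G M) (x : R.ι 0 → MonoidAlgebra ℤ G) : R.ev (-x) = - R.ev x := by
  simp [ev, neg_smul, Finset.sum_neg_distrib]

lemma ev_sub (R : Res G M) (x y : R.ι 0 → MonoidAlgebra ℤ G) :
    R.ev (x - y) = R.ev x - R.ev y := by
  rw [sub_eq_add_neg, ev_add, ev_neg, sub_eq_add_neg]

lemma ev_vecMul (R : Res G M) {κ : Type} [Fintype κ] (x : κ → MonoidAlgebra ℤ G)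
    (N : Matrix κ (R.ι 0) (MonoidAlgebra ℤ G)) : R.ev (x ᵥ* N) = ∑ k, x k • R.ev (N k) := by
  simp only [ev, Matrix.vecMul, dotProduct, Finset.sum_smul, Finset.smul_sum, mul_smul]
  exact Finset.sum_comm

lemma row_zero (R : Res G M) (k : R.ι 1) : R.ev (R.d 0 k) = 0 := by
  classical
  exact (R.exact_zero (R.d 0 k)).2 ⟨Pi.single k 1, Matrix.single_one_vecMul _ _⟩

lemma ev_d (R : Res G M) (x : R.ι 1 → MonoidAlgebra ℤ G) : R.ev (x ᵥ* R.d 0) = 0 :=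
  (R.exact_zero _).2 ⟨x, rfl⟩

lemma dd (R : Res G M) (i : ℕ) : R.d (i + 1) * R.d i = 0 := by
  classical
  refine funext fun k => ?_
  exact (R.exact_succ i (R.d (i + 1) k)).2 ⟨Pi.single k 1, Matrix.single_one_vecMul _ _⟩

end Res

/-- the condition used to continue a chain map -/
def Good (X' : Res G M') (X : Res G M) (f : M' →ₗ[MonoidAlgebra ℤ G] M) :
    ∀ i, Matrix (X'.ι i) (X.ι i) (MonoidAlgebra ℤ G) → Prop
  | 0 => fun F => ∀ k, X.ev (F k) = f (X'.aug k)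
  | i + 1 => fun F => X'.d (i + 1) * F * X.d i = 0

/-- chain maps -/
theorem exists_chain (X' : Res G M') (X : Res G M) (f : M' →ₗ[MonoidAlgebra ℤ G] M) :
    ∃ F : ∀ i, Matrix (X'.ι i) (X.ι i) (MonoidAlgebra ℤ G),
      (∀ k, X.ev (F 0 k) = f (X'.aug k)) ∧ ∀ i, X'.d i * F i = F (i + 1) * X.d i := by
  choose F0 hF0 using fun k : X'.ι 0 => X.surj (f (X'.aug k))
  obtain ⟨F, hf0, hf⟩ := dep_seq
    (α := fun i => {F : Matrix (X'.ι i) (X.ι i) (MonoidAlgebra ℤ G) // Good X' X f i F})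
    (fun i F F' => X'.d i * F.1 = F'.1 * X.d i) ⟨F0, hF0⟩ (by
      rintro i ⟨F, hF⟩
      obtain ⟨F', hF'⟩ : ∃ s : Matrix (X'.ι (i + 1)) (X.ι (i + 1)) (MonoidAlgebra ℤ G),
          s * X.d i = X'.d i * F := by
        cases i with
        | zero =>
          refine rows _ _ fun k => (X.exact_zero _).1 ?_
          change X.ev (X'.d 0 k ᵥ* F) = 0
          rw [Res.ev_vecMul]
          have h1 : ∑ j, X'.d 0 k j • X.ev (F j) = f (X'.ev (X'.d 0 k)) := by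
            rw [Res.ev, map_sum]
            refine Finset.sum_congr rfl fun j _ => ?_
            rw [map_smul]
            congr 1
            exact hF j
          rw [h1, X'.row_zero, map_zero]
        | succ i =>
          refine rows _ _ fun k => (X.exact_succ i _).1 ?_
          exact congrFun (show (X'.d (i + 1) * F) * X.d i = 0 from hF) k
      refine ⟨⟨F', ?_⟩, hF'.symm⟩
      change X'.d (i + 1) * F' * X.d i = 0
      rw [Matrix.mul_assoc, hF', ← Matrix.mul_assoc, X'.dd, Matrix.zero_mul])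
  refine ⟨fun i => (F i).1, (F 0).2, hf⟩

/-- the index types of the cone -/
def cι (X' : Res G M') (X : Res G M) : ℕ → Type
  | 0 => X.ι 0
  | i + 1 => X'.ι i ⊕ X.ι (i + 1)

instance cfin (X' : Res G M') (X : Res G M) : ∀ i, Fintype (cι X' X i)
  | 0 => X.fin 0
  | i + 1 => inferInstanceAs (Fintype (X'.ι i ⊕ X.ι (i + 1)))

/-- the differentials of the cone -/
def cd (X' : Res G M') (X : Res G M) (F : ∀ i, Matrix (X'.ι i) (X.ι i) (MonoidAlgebra ℤ G)) :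
    ∀ i, Matrix (cι X' X (i + 1)) (cι X' X i) (MonoidAlgebra ℤ G)
  | 0 => Matrix.fromRows (F 0) (X.d 0)
  | i + 1 => Matrix.fromBlocks (-(X'.d i)) (F (i + 1)) 0 (X.d (i + 1))

section vec

variable (X' : Res G M') (X : Res G M) (F : ∀ i, Matrix (X'.ι i) (X.ι i) (MonoidAlgebra ℤ G))

lemma vec_cd0 (x' : X'.ι 0 → MonoidAlgebra ℤ G) (x : X.ι 1 → MonoidAlgebra ℤ G) :
    (Sum.elim x' x : X'.ι 0 ⊕ X.ι 1 → MonoidAlgebra ℤ G) ᵥ* (Matrix.fromRows (F 0) (X.d 0)) =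
      x' ᵥ* F 0 + x ᵥ* X.d 0 := by
  rw [Matrix.vecMul_fromRows]; rfl

lemma vec_cds (i : ℕ) (x' : X'.ι (i + 1) → MonoidAlgebra ℤ G)
    (x : X.ι (i + 1 + 1) → MonoidAlgebra ℤ G) :
    (Sum.elim x' x : X'.ι (i + 1) ⊕ X.ι (i + 1 + 1) → MonoidAlgebra ℤ G) ᵥ*
      (Matrix.fromBlocks (-(X'.d i)) (F (i + 1)) 0 (X.d (i + 1))) =
      Sum.elim (-(x' ᵥ* X'.d i)) (x' ᵥ* F (i + 1) + x ᵥ* X.d (i + 1)) := by
  rw [Matrix.vecMul_fromBlocks]
  simp only [Sum.elim_comp_inl, Sum.elim_comp_inr, Matrix.vecMul_neg, Matrix.vecMul_zero,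
    add_zero]

variable {S : Type} [Ring S] (φ : MonoidAlgebra ℤ G →+* S)

lemma vec_cd0_map (x' : X'.ι 0 → S) (x : X.ι 1 → S) :
    (Sum.elim x' x : X'.ι 0 ⊕ X.ι 1 → S) ᵥ* (Matrix.fromRows (F 0) (X.d 0)).map φ =
      x' ᵥ* (F 0).map φ + x ᵥ* (X.d 0).map φ := by
  have h : (Matrix.fromRows (F 0) (X.d 0)).map φ =
      Matrix.fromRows ((F 0).map φ) ((X.d 0).map φ) := by
    ext i j
    cases i <;> rfl
  rw [h, Matrix.vecMul_fromRows]; rfl

lemma vec_cds_map (i : ℕ) (x' : X'.ι (i + 1) → S) (x : X.ι (i + 1 + 1) → S) :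
    (Sum.elim x' x : X'.ι (i + 1) ⊕ X.ι (i + 1 + 1) → S) ᵥ*
      (Matrix.fromBlocks (-(X'.d i)) (F (i + 1)) 0 (X.d (i + 1))).map φ =
      Sum.elim (-(x' ᵥ* (X'.d i).map φ)) (x' ᵥ* (F (i + 1)).map φ + x ᵥ* (X.d (i + 1)).map φ) := by
  have h1 : (-(X'.d i)).map φ = -((X'.d i).map φ) := by
    ext a b
    exact map_neg φ _
  have h0 : (0 : Matrix (X.ι (i + 1 + 1)) (X'.ι i) (MonoidAlgebra ℤ G)).map φ = 0 := by
    ext a b
    exact map_zero φ
  rw [Matrix.fromBlocks_map, h1, h0, Matrix.vecMul_fromBlocks]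
  simp only [Sum.elim_comp_inl, Sum.elim_comp_inr, Matrix.vecMul_neg, Matrix.vecMul_zero,
    add_zero]

end vec

lemma sum_split {A B : Type} {S : Type} (x : A ⊕ B → S) :
    ∃ u v, x = Sum.elim u v := ⟨x ∘ Sum.inl, x ∘ Sum.inr, (Sum.elim_comp_inl_inr x).symm⟩

lemma elim_zero {A B : Type} {S : Type} [Zero S] :
    (0 : A ⊕ B → S) = Sum.elim (0 : A → S) (0 : B → S) := by
  funext j; cases j <;> rfl

lemma elim_inj {A B : Type} {S : Type} {x x' : A → S} {y y' : B → S}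
    (h : Sum.elim x y = Sum.elim x' y') : x = x' ∧ y = y' :=
  ⟨funext fun a => congrFun h (Sum.inl a), funext fun b => congrFun h (Sum.inr b)⟩

/-- the mapping cone is a resolution of the cokernel -/
def cone (X' : Res G M') (X : Res G M) (f : M' →ₗ[MonoidAlgebra ℤ G] M)
    (g : M →ₗ[MonoidAlgebra ℤ G] M'') (hf : Function.Injective f) (hg : Function.Surjective g)
    (hfg : ∀ m, g m = 0 ↔ ∃ m', f m' = m)
    (F : ∀ i, Matrix (X'.ι i) (X.ι i) (MonoidAlgebra ℤ G))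
    (hF0 : ∀ k, X.ev (F 0 k) = f (X'.aug k)) (hF : ∀ i, X'.d i * F i = F (i + 1) * X.d i) :
    Res G M'' where
  ι := cι X' X
  fin := cfin X' X
  d := cd X' X F
  aug := fun j => g (X.aug j)
  surj := by
    intro m
    obtain ⟨m0, rfl⟩ := hg m
    obtain ⟨x, rfl⟩ := X.surj m0
    refine ⟨x, ?_⟩
    rw [map_sum]
    exact Finset.sum_congr rfl fun j _ => by rw [map_smul]
  exact_zero := by
    intro x
    change X.ι 0 → MonoidAlgebra ℤ G at x
    have h1 : (∑ j : X.ι 0, x j • g (X.aug j)) = g (X.ev x) := by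
      rw [Res.ev, map_sum]
      exact Finset.sum_congr rfl fun j _ => by rw [map_smul]
    have hFev : ∀ x' : X'.ι 0 → MonoidAlgebra ℤ G, X.ev (x' ᵥ* F 0) = f (X'.ev x') := by
      intro x'
      rw [Res.ev_vecMul, Res.ev, map_sum]
      exact Finset.sum_congr rfl fun j _ => by rw [hF0, map_smul]
    change (∑ j : X.ι 0, x j • g (X.aug j)) = 0 ↔ ∃ y : X'.ι 0 ⊕ X.ι 1 → MonoidAlgebra ℤ G,
      y ᵥ* (Matrix.fromRows (F 0) (X.d 0)) = x
    rw [h1, hfg]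
    constructor
    · rintro ⟨m', hm'⟩
      obtain ⟨y', hy'⟩ := X'.surj m'
      obtain ⟨y, hy⟩ := (X.exact_zero (x - y' ᵥ* F 0)).1 (by
        change X.ev (x - y' ᵥ* F 0) = 0
        rw [Res.ev_sub, hFev, sub_eq_zero, ← hm', ← hy']
        rfl)
      refine ⟨Sum.elim y' y, ?_⟩
      rw [vec_cd0, hy, add_sub_cancel]
    · rintro ⟨y, rfl⟩
      obtain ⟨y', y, rfl⟩ := sum_split y
      refine ⟨X'.ev y', ?_⟩
      rw [vec_cd0, Res.ev_add, hFev, Res.ev_d, add_zero]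
  exact_succ := by
    have hFev : ∀ x' : X'.ι 0 → MonoidAlgebra ℤ G, X.ev (x' ᵥ* F 0) = f (X'.ev x') := by
      intro x'
      rw [Res.ev_vecMul, Res.ev, map_sum]
      exact Finset.sum_congr rfl fun j _ => by rw [hF0, map_smul]
    intro i
    cases i with
    | zero =>
      change ∀ x : X'.ι 0 ⊕ X.ι 1 → MonoidAlgebra ℤ G,
        x ᵥ* (Matrix.fromRows (F 0) (X.d 0)) = 0 ↔
          ∃ y : X'.ι 1 ⊕ X.ι 2 → MonoidAlgebra ℤ G,
            y ᵥ* (Matrix.fromBlocks (-(X'.d 0)) (F 1) 0 (X.d 1)) = x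
      intro x
      constructor
      · intro hx
        obtain ⟨x', x, rfl⟩ := sum_split x
        rw [vec_cd0] at hx
        obtain ⟨y', hy'⟩ := (X'.exact_zero x').1 (by
          apply hf
          change f (X'.ev x') = f 0
          rw [map_zero, ← hFev, eq_neg_of_add_eq_zero_left hx, Res.ev_neg, Res.ev_d, neg_zero])
        obtain ⟨y, hy⟩ := (X.exact_succ 0 (x - (-y') ᵥ* F 1)).1 (by
          rw [Matrix.sub_vecMul, Matrix.vecMul_vecMul, ← hF 0, Matrix.neg_vecMul,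
            ← Matrix.vecMul_vecMul, hy', sub_neg_eq_add]
          exact (add_comm _ _).trans hx)
        refine ⟨Sum.elim (-y') y, ?_⟩
        rw [vec_cds, hy, add_sub_cancel, Matrix.neg_vecMul, neg_neg, hy']
      · rintro ⟨y, rfl⟩
        obtain ⟨y', y, rfl⟩ := sum_split y
        rw [vec_cds, vec_cd0, Matrix.add_vecMul, Matrix.neg_vecMul, Matrix.vecMul_vecMul,
          Matrix.vecMul_vecMul, Matrix.vecMul_vecMul, ← hF 0, X.dd 0, Matrix.vecMul_zero]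
        abel
    | succ i =>
      change ∀ x : X'.ι (i + 1) ⊕ X.ι (i + 1 + 1) → MonoidAlgebra ℤ G,
        x ᵥ* (Matrix.fromBlocks (-(X'.d i)) (F (i + 1)) 0 (X.d (i + 1))) = 0 ↔
          ∃ y : X'.ι (i + 1 + 1) ⊕ X.ι (i + 1 + 1 + 1) → MonoidAlgebra ℤ G,
            y ᵥ* (Matrix.fromBlocks (-(X'.d (i + 1))) (F (i + 1 + 1)) 0 (X.d (i + 1 + 1))) = x
      intro x
      constructor
      · intro hx
        obtain ⟨x', x, rfl⟩ := sum_split x
        rw [vec_cds, elim_zero] at hx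
        obtain ⟨hx1, hx2⟩ := elim_inj hx
        obtain ⟨y', hy'⟩ := (X'.exact_succ i x').1 (neg_eq_zero.1 hx1)
        obtain ⟨y, hy⟩ := (X.exact_succ (i + 1) (x - (-y') ᵥ* F (i + 1 + 1))).1 (by
          rw [Matrix.sub_vecMul, Matrix.vecMul_vecMul, ← hF (i + 1), Matrix.neg_vecMul,
            ← Matrix.vecMul_vecMul, hy', sub_neg_eq_add]
          exact (add_comm _ _).trans hx2)
        refine ⟨Sum.elim (-y') y, ?_⟩
        rw [vec_cds, hy, add_sub_cancel, Matrix.neg_vecMul, neg_neg, hy']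
      · rintro ⟨y, rfl⟩
        obtain ⟨y', y, rfl⟩ := sum_split y
        rw [vec_cds, vec_cds, elim_zero]
        congr 1
        · rw [Matrix.neg_vecMul, Matrix.vecMul_vecMul, X'.dd i, Matrix.vecMul_zero, neg_zero,
            neg_zero]
        · rw [Matrix.add_vecMul, Matrix.neg_vecMul, Matrix.vecMul_vecMul,
            Matrix.vecMul_vecMul, Matrix.vecMul_vecMul, ← hF (i + 1), X.dd (i + 1),
            Matrix.vecMul_zero]
          abel

section les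

variable (X' : Res G M') (X : Res G M) (f : M' →ₗ[MonoidAlgebra ℤ G] M)
  (g : M →ₗ[MonoidAlgebra ℤ G] M'') (hf : Function.Injective f) (hg : Function.Surjective g)
  (hfg : ∀ m, g m = 0 ↔ ∃ m', f m' = m)
  (F : ∀ i, Matrix (X'.ι i) (X.ι i) (MonoidAlgebra ℤ G))
  (hF0 : ∀ k, X.ev (F 0 k) = f (X'.aug k)) (hF : ∀ i, X'.d i * F i = F (i + 1) * X.d i)
  {S : Type} [Ring S] (φ : MonoidAlgebra ℤ G →+* S)

include hF in
lemma hF_map (i : ℕ) : (X'.d i).map φ * (F i).map φ = (F (i + 1)).map φ * (X.d i).map φ := by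
  rw [← Matrix.map_mul, ← Matrix.map_mul, hF]

lemma dd_map (X : Res G M) (i : ℕ) : (X.d (i + 1)).map φ * (X.d i).map φ = 0 := by
  rw [← Matrix.map_mul, X.dd]
  ext a b
  exact map_zero φ

theorem les1 (k : ℕ) (hc : ExR (cone X' X f g hf hg hfg F hF0 hF) φ (k + 1)) (hX : ExR X φ k) :
    ExR X' φ k := by
  cases k with
  | zero =>
    intro x'
    obtain ⟨z, hz⟩ := hX (x' ᵥ* (F 0).map φ)
    change ∀ x : X'.ι 0 ⊕ X.ι 1 → S, x ᵥ* (Matrix.fromRows (F 0) (X.d 0)).map φ = 0 →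
      ∃ y : X'.ι 1 ⊕ X.ι 2 → S,
        y ᵥ* (Matrix.fromBlocks (-(X'.d 0)) (F 1) 0 (X.d 1)).map φ = x at hc
    obtain ⟨w, hw⟩ := hc (Sum.elim x' (-z)) (by
      rw [vec_cd0_map, Matrix.neg_vecMul, hz, add_neg_cancel])
    obtain ⟨w', w, rfl⟩ := sum_split w
    rw [vec_cds_map] at hw
    refine ⟨-w', ?_⟩
    rw [Matrix.neg_vecMul]
    exact (elim_inj hw).1
  | succ k =>
    intro x' hx'
    obtain ⟨z, hz⟩ := hX (x' ᵥ* (F (k + 1)).map φ) (by
      rw [Matrix.vecMul_vecMul, ← hF_map X' X F hF φ k, ← Matrix.vecMul_vecMul, hx',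
        Matrix.zero_vecMul])
    change ∀ x : X'.ι (k + 1) ⊕ X.ι (k + 1 + 1) → S,
      x ᵥ* (Matrix.fromBlocks (-(X'.d k)) (F (k + 1)) 0 (X.d (k + 1))).map φ = 0 →
      ∃ y : X'.ι (k + 1 + 1) ⊕ X.ι (k + 1 + 1 + 1) → S,
        y ᵥ* (Matrix.fromBlocks (-(X'.d (k + 1))) (F (k + 1 + 1)) 0 (X.d (k + 1 + 1))).map φ = x
      at hc
    obtain ⟨w, hw⟩ := hc (Sum.elim x' (-z)) (by
      rw [vec_cds_map, Matrix.neg_vecMul, hz, add_neg_cancel, hx', neg_zero, elim_zero])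
    obtain ⟨w', w, rfl⟩ := sum_split w
    rw [vec_cds_map] at hw
    refine ⟨-w', ?_⟩
    rw [Matrix.neg_vecMul]
    exact (elim_inj hw).1

theorem les2 (k : ℕ) (hc : ExR (cone X' X f g hf hg hfg F hF0 hF) φ k) (hX' : ExR X' φ k) :
    ExR X φ k := by
  match k, hc, hX' with
  | 0, hc, hX' =>
    intro x
    change ∀ x : X.ι 0 → S, ∃ y : X'.ι 0 ⊕ X.ι 1 → S,
      y ᵥ* (Matrix.fromRows (F 0) (X.d 0)).map φ = x at hc
    obtain ⟨w, hw⟩ := hc x
    obtain ⟨w', w, rfl⟩ := sum_split w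
    rw [vec_cd0_map] at hw
    obtain ⟨u, rfl⟩ := hX' w'
    refine ⟨u ᵥ* (F 1).map φ + w, ?_⟩
    rw [Matrix.add_vecMul, Matrix.vecMul_vecMul, ← hF_map X' X F hF φ 0, ← Matrix.vecMul_vecMul]
    exact hw
  | 1, hc, hX' =>
    intro x hx
    change ∀ x : X'.ι 0 ⊕ X.ι 1 → S, x ᵥ* (Matrix.fromRows (F 0) (X.d 0)).map φ = 0 →
      ∃ y : X'.ι 1 ⊕ X.ι 2 → S,
        y ᵥ* (Matrix.fromBlocks (-(X'.d 0)) (F 1) 0 (X.d 1)).map φ = x at hc
    obtain ⟨w, hw⟩ := hc (Sum.elim 0 x) (by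
      rw [vec_cd0_map, Matrix.zero_vecMul, zero_add]
      exact hx)
    obtain ⟨w', w, rfl⟩ := sum_split w
    rw [vec_cds_map] at hw
    obtain ⟨h1, h2⟩ := elim_inj hw
    obtain ⟨u, rfl⟩ := hX' w' (neg_eq_zero.1 h1)
    refine ⟨u ᵥ* (F 2).map φ + w, ?_⟩
    rw [Matrix.add_vecMul, Matrix.vecMul_vecMul]
    change u ᵥ* ((F (1 + 1)).map φ * (X.d 1).map φ) + _ = x
    rw [← hF_map X' X F hF φ 1, ← Matrix.vecMul_vecMul]
    exact h2
  | k + 2, hc, hX' =>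
    intro x hx
    change ∀ x : X'.ι (k + 1) ⊕ X.ι (k + 1 + 1) → S,
      x ᵥ* (Matrix.fromBlocks (-(X'.d k)) (F (k + 1)) 0 (X.d (k + 1))).map φ = 0 →
      ∃ y : X'.ι (k + 1 + 1) ⊕ X.ι (k + 1 + 1 + 1) → S,
        y ᵥ* (Matrix.fromBlocks (-(X'.d (k + 1))) (F (k + 1 + 1)) 0 (X.d (k + 1 + 1))).map φ = x
      at hc
    obtain ⟨w, hw⟩ := hc (Sum.elim 0 x) (by
      rw [vec_cds_map, Matrix.zero_vecMul, Matrix.zero_vecMul, zero_add, neg_zero, elim_zero]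
      congr 1)
    obtain ⟨w', w, rfl⟩ := sum_split w
    rw [vec_cds_map] at hw
    obtain ⟨h1, h2⟩ := elim_inj hw
    obtain ⟨u, rfl⟩ := hX' w' (neg_eq_zero.1 h1)
    refine ⟨u ᵥ* (F (k + 1 + 1 + 1)).map φ + w, ?_⟩
    rw [Matrix.add_vecMul, Matrix.vecMul_vecMul]
    change u ᵥ* ((F (k + 1 + 1 + 1)).map φ * (X.d (k + 1 + 1)).map φ) + _ = x
    rw [← hF_map X' X F hF φ (k + 1 + 1), ← Matrix.vecMul_vecMul]
    exact h2

theorem les3_zero (hX : ExR X φ 0) : ExR (cone X' X f g hf hg hfg F hF0 hF) φ 0 := by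
  intro x
  obtain ⟨y, hy⟩ := hX x
  refine ⟨(Sum.elim 0 y : X'.ι 0 ⊕ X.ι 1 → S), ?_⟩
  change (Sum.elim 0 y : X'.ι 0 ⊕ X.ι 1 → S) ᵥ* (Matrix.fromRows (F 0) (X.d 0)).map φ = x
  rw [vec_cd0_map, Matrix.zero_vecMul, zero_add]
  exact hy

theorem les3 (k : ℕ) (hX : ExR X φ (k + 1)) (hX' : ExR X' φ k) :
    ExR (cone X' X f g hf hg hfg F hF0 hF) φ (k + 1) := by
  cases k with
  | zero =>
    change ∀ x : X'.ι 0 ⊕ X.ι 1 → S, x ᵥ* (Matrix.fromRows (F 0) (X.d 0)).map φ = 0 →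
      ∃ y : X'.ι 1 ⊕ X.ι 2 → S,
        y ᵥ* (Matrix.fromBlocks (-(X'.d 0)) (F 1) 0 (X.d 1)).map φ = x
    intro x hx
    obtain ⟨x', x, rfl⟩ := sum_split x
    rw [vec_cd0_map] at hx
    obtain ⟨y', rfl⟩ := hX' x'
    obtain ⟨y, hy⟩ := hX (x - (-y') ᵥ* (F 1).map φ) (by
      rw [Matrix.sub_vecMul, Matrix.vecMul_vecMul, ← hF_map X' X F hF φ 0, Matrix.neg_vecMul,
        ← Matrix.vecMul_vecMul, sub_neg_eq_add]
      exact (add_comm _ _).trans hx)
    refine ⟨Sum.elim (-y') y, ?_⟩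
    rw [vec_cds_map]
    congr 1
    · rw [Matrix.neg_vecMul, neg_neg]
    · change (-y') ᵥ* (F 1).map φ + y ᵥ* (X.d (0 + 1)).map φ = x
      rw [hy, add_sub_cancel]
  | succ k =>
    change ∀ x : X'.ι (k + 1) ⊕ X.ι (k + 1 + 1) → S,
      x ᵥ* (Matrix.fromBlocks (-(X'.d k)) (F (k + 1)) 0 (X.d (k + 1))).map φ = 0 →
      ∃ y : X'.ι (k + 1 + 1) ⊕ X.ι (k + 1 + 1 + 1) → S,
        y ᵥ* (Matrix.fromBlocks (-(X'.d (k + 1))) (F (k + 1 + 1)) 0 (X.d (k + 1 + 1))).map φ = x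
    intro x hx
    obtain ⟨x', x, rfl⟩ := sum_split x
    rw [vec_cds_map, elim_zero] at hx
    obtain ⟨h1, h2⟩ := elim_inj hx
    obtain ⟨y', rfl⟩ := hX' x' (neg_eq_zero.1 h1)
    obtain ⟨y, hy⟩ := hX (x - (-y') ᵥ* (F (k + 1 + 1)).map φ) (by
      rw [Matrix.sub_vecMul, Matrix.vecMul_vecMul, ← hF_map X' X F hF φ (k + 1),
        Matrix.neg_vecMul, ← Matrix.vecMul_vecMul, sub_neg_eq_add]
      exact (add_comm _ _).trans h2)
    refine ⟨Sum.elim (-y') y, ?_⟩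
    rw [vec_cds_map]
    congr 1
    · rw [Matrix.neg_vecMul, neg_neg]
    · rw [hy, add_sub_cancel]

end les

end

end Pool.Agent.TH38.CX
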