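import Pool.Agent.TH38.ZT.Gen

/-!
Resolutions of `ℤ[G]`-modules by free modules of finite rank, permutation modules, and the
inclusion of the group ring of a subgroup.
-/

set_option autoImplicit false
set_option linter.unusedSectionVars false

open scoped Matrix

namespace Pool.Agent.TH38.CX

open Pool.Agent.H919R4.ZS

noncomputable section

/-- A resolution `⋯ → ℤ[G]^(ι 1) → ℤ[G]^(ι 0) → M → 0` of the left `ℤ[G]`-module `M` by free
modules of finite rank (row vectors, the differential is `x ↦ x · d i`). -/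
structure Res (G : Type) [Group G] (M : Type) [AddCommGroup M] [Module (MonoidAlgebra ℤ G) M] where
  ι : ℕ → Type
  fin : ∀ i, Fintype (ι i)
  d : ∀ i, Matrix (ι (i + 1)) (ι i) (MonoidAlgebra ℤ G)
  aug : ι 0 → M
  surj : ∀ m : M, ∃ x : ι 0 → MonoidAlgebra ℤ G, ∑ j, x j • aug j = m
  exact_zero : ∀ x : ι 0 → MonoidAlgebra ℤ G, ∑ j, x j • aug j = 0 ↔ ∃ y, y ᵥ* d 0 = x
  exact_succ : ∀ (i : ℕ) (x : ι (i + 1) → MonoidAlgebra ℤ G),
    x ᵥ* d i = 0 ↔ ∃ y, y ᵥ* d (i + 1) = x

instance {G : Type} [Group G] {M : Type} [AddCommGroup M] [Module (MonoidAlgebra ℤ G) M]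
    (R : Res G M) (i : ℕ) : Fintype (R.ι i) := R.fin i

/-- the complex `S ⊗ R` is exact in degree `i` -/
def ExR {G : Type} [Group G] {M : Type} [AddCommGroup M] [Module (MonoidAlgebra ℤ G) M]
    (R : Res G M) {S : Type} [Ring S] (φ : MonoidAlgebra ℤ G →+* S) : ℕ → Prop
  | 0 => ∀ x : R.ι 0 → S, ∃ y, y ᵥ* (R.d 0).map φ = x
  | i + 1 => ∀ x : R.ι (i + 1) → S, x ᵥ* (R.d i).map φ = 0 → ∃ y, y ᵥ* (R.d (i + 1)).map φ = x

/-- The permutation module `ℤ[E]` of a `G`-set `E`. -/
def PM (G : Type) [Group G] (E : Type) [MulAction G E] : Type := E →₀ ℤ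

instance (G : Type) [Group G] (E : Type) [MulAction G E] : AddCommGroup (PM G E) :=
  inferInstanceAs (AddCommGroup (E →₀ ℤ))

/-- The action of `G` on `ℤ[E]`. -/
def prep (G : Type) [Group G] (E : Type) [MulAction G E] : G →* Module.End ℤ (E →₀ ℤ) where
  toFun g := Finsupp.lmapDomain ℤ ℤ (fun e => g • e)
  map_one' := by
    refine LinearMap.ext fun m => ?_
    change Finsupp.mapDomain (fun e => (1 : G) • e) m = m
    simp only [one_smul]
    exact Finsupp.mapDomain_id
  map_mul' g h := by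
    refine LinearMap.ext fun m => ?_
    change Finsupp.mapDomain (fun e => (g * h) • e) m =
      Finsupp.mapDomain (fun e => g • e) (Finsupp.mapDomain (fun e => h • e) m)
    rw [← Finsupp.mapDomain_comp]
    congr 1
    funext e
    exact mul_smul g h e

instance (G : Type) [Group G] (E : Type) [MulAction G E] :
    Module (MonoidAlgebra ℤ G) (PM G E) :=
  Module.compHom (E →₀ ℤ) (MonoidAlgebra.lift ℤ (Module.End ℤ (E →₀ ℤ)) G (prep G E)).toRingHom

lemma pm_single_smul {G : Type} [Group G] {E : Type} [MulAction G E] (g : G) (r : ℤ)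
    (m : E →₀ ℤ) : (MonoidAlgebra.single g r : MonoidAlgebra ℤ G) • (show PM G E from m) =
      (show PM G E from r • Finsupp.mapDomain (fun e => g • e) m) := by
  change (MonoidAlgebra.lift ℤ (Module.End ℤ (E →₀ ℤ)) G (prep G E)
    (MonoidAlgebra.single g r)) m = _
  rw [MonoidAlgebra.lift_single]
  rfl

/-- The inclusion `ℤ[H] → ℤ[G]` for a subgroup `H` of `G`. -/
def incl {G : Type} [Group G] (H : Subgroup G) : MonoidAlgebra ℤ H →+* MonoidAlgebra ℤ G :=
  MonoidAlgebra.mapDomainRingHom ℤ H.subtype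

end

end Pool.Agent.TH38.CX
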