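import Pool.Agent.TH38.CX.Defs

/-!
PERM-RES: finite free resolution of a permutation module from those of the stabilizers (job 4072).
-/

set_option autoImplicit false

open scoped Matrix

namespace Pool.Agent.TH38.CX

open Pool.Agent.H919R4.ZS
open Pool.Agent.TH38.ZT (ExAt)

namespace Perm

/-! ### Block diagonal matrices -/

section blk

variable {c : ℕ} {n n' : Fin c → ℕ} {S : Type} [Ring S]

lemma vecMul_blk (M : ∀ a, Matrix (Fin (n' a)) (Fin (n a)) S) (x : (Σ a, Fin (n' a)) → S) (a : Fin c)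
    (j : Fin (n a)) :
    (x ᵥ* Matrix.blockDiagonal' M) ⟨a, j⟩ = ((fun i => x ⟨a, i⟩) ᵥ* M a) j := by
  simp only [Matrix.vecMul, dotProduct]
  rw [Fintype.sum_sigma, Finset.sum_eq_single a]
  · refine Finset.sum_congr rfl fun i _ => ?_
    rw [Matrix.blockDiagonal'_apply_eq]
  · intro b _ hb
    refine Finset.sum_eq_zero fun i _ => ?_
    rw [Matrix.blockDiagonal'_apply_ne _ _ _ hb, mul_zero]
  · intro h
    exact absurd (Finset.mem_univ a) h

lemma blk_eq_zero (M : ∀ a, Matrix (Fin (n' a)) (Fin (n a)) S) (x : (Σ a, Fin (n' a)) → S) :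
    x ᵥ* Matrix.blockDiagonal' M = 0 ↔ ∀ a, (fun i => x ⟨a, i⟩) ᵥ* M a = 0 := by
  constructor
  · intro h a
    funext j
    rw [← vecMul_blk, h]
    rfl
  · intro h
    funext ⟨a, j⟩
    rw [vecMul_blk, h a]
    rfl

lemma exists_blk (M : ∀ a, Matrix (Fin (n' a)) (Fin (n a)) S) (x : (Σ a, Fin (n a)) → S) :
    (∃ y, y ᵥ* Matrix.blockDiagonal' M = x) ↔ ∀ a, ∃ y, y ᵥ* M a = fun j => x ⟨a, j⟩ := by
  constructor
  · rintro ⟨y, rfl⟩ a
    exact ⟨fun i => y ⟨a, i⟩, funext fun j => (vecMul_blk M y a j).symm⟩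
  · intro h
    choose y hy using h
    refine ⟨fun p => y p.1 p.2, ?_⟩
    funext ⟨a, j⟩
    rw [vecMul_blk]
    exact congrFun (hy a) j

end blk

/-! ### The coset components -/

section kap

variable {G : Type} [Group G] (H : Subgroup G)

/-- `x ↦ (h ↦ x(t h))` -/
noncomputable def kap (t : G) : MonoidAlgebra ℤ G →+ MonoidAlgebra ℤ H where
  toFun x := MonoidAlgebra.ofCoeff (x.coeff.comapDomain (fun h : H => t * h) (by
    intro a _ b _ h
    exact Subtype.ext (mul_left_cancel h)))
  map_zero' := by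
    ext h
    simp
  map_add' x y := by
    ext h
    rfl

lemma kap_coeff (t : G) (x : MonoidAlgebra ℤ G) (h : H) :
    (kap H t x).coeff h = x.coeff (t * h) := rfl

lemma incl_single (h : H) (r : ℤ) :
    incl H (MonoidAlgebra.single h r) = MonoidAlgebra.single (h : G) r := by
  simp [incl]

lemma kap_mul_incl (t : G) (x : MonoidAlgebra ℤ G) (a : MonoidAlgebra ℤ H) :
    kap H t (x * incl H a) = kap H t x * a := by
  refine MonoidAlgebra.induction_linear a ?_ ?_ ?_
  · simp
  · intro a b ha hb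
    rw [map_add, mul_add, map_add, ha, hb, mul_add]
  · intro h s
    ext h'
    rw [kap_coeff, incl_single, MonoidAlgebra.coeff_mul_single_apply,
      MonoidAlgebra.coeff_mul_single_apply, kap_coeff]
    simp [mul_assoc]

lemma kap_vecMul {a b : ℕ} (t : G) (x : Fin a → MonoidAlgebra ℤ G)
    (M : Matrix (Fin a) (Fin b) (MonoidAlgebra ℤ H)) :
    (fun j => kap H t ((x ᵥ* M.map (incl H)) j)) = (fun i => kap H t (x i)) ᵥ* M := by
  funext j
  simp only [Matrix.vecMul, dotProduct, map_sum, Matrix.map_apply, kap_mul_incl]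

lemma incl_coeff_mem (a : MonoidAlgebra ℤ H) {g : G} (hg : g ∈ H) :
    (incl H a).coeff g = a.coeff ⟨g, hg⟩ := by
  refine MonoidAlgebra.induction_linear a ?_ ?_ ?_
  · simp
  · intro a b ha hb
    simp [ha, hb]
  · intro h s
    classical
    rw [incl_single, MonoidAlgebra.coeff_single, MonoidAlgebra.coeff_single, Finsupp.single_apply,
      Finsupp.single_apply]
    have : (h : G) = g ↔ h = ⟨g, hg⟩ := by
      rw [Subtype.ext_iff]
    simp only [this]

lemma incl_coeff_not (a : MonoidAlgebra ℤ H) {g : G} (hg : g ∉ H) : (incl H a).coeff g = 0 := by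
  refine MonoidAlgebra.induction_linear a ?_ ?_ ?_
  · simp
  · intro a b ha hb
    simp [ha, hb]
  · intro h s
    rw [incl_single, MonoidAlgebra.coeff_single]
    apply Finsupp.single_eq_of_ne
    rintro rfl
    exact hg h.2

lemma piece_coeff (t : G) (x : MonoidAlgebra ℤ G) (g : G) [Decidable (t⁻¹ * g ∈ H)] :
    (MonoidAlgebra.single t (1 : ℤ) * incl H (kap H t x)).coeff g =
      if t⁻¹ * g ∈ H then x.coeff g else 0 := by
  rw [MonoidAlgebra.coeff_single_mul_apply, one_mul]
  split_ifs with h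
  · rw [incl_coeff_mem H _ h, kap_coeff]
    simp
  · exact incl_coeff_not H _ h

/-- the representative of the coset -/
noncomputable def rp (g : G) : G := (QuotientGroup.mk g : G ⧸ H).out

lemma rp_mk (g : G) : (QuotientGroup.mk (rp H g) : G ⧸ H) = QuotientGroup.mk g :=
  Quotient.out_eq' _

lemma mem_iff (g g' : G) : (rp H g')⁻¹ * g ∈ H ↔ rp H g' = rp H g := by
  rw [← QuotientGroup.eq, rp_mk]
  constructor
  · intro h
    rw [rp, rp, h]
  · intro h
    rw [← rp_mk H g', h, rp_mk]

lemma recon {b : ℕ} (x : Fin b → MonoidAlgebra ℤ G) : ∃ T : Finset G, ∀ i,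
    x i = ∑ t ∈ T, MonoidAlgebra.single t (1 : ℤ) * incl H (kap H t (x i)) := by
  classical
  refine ⟨(Finset.univ.biUnion fun i => (x i).coeff.support).image (rp H), fun i => ?_⟩
  ext g
  rw [MonoidAlgebra.coeff_sum, Finsupp.finsetSum_apply]
  simp only [piece_coeff]
  by_cases hg : (x i).coeff g = 0
  · rw [hg]
    simp
  · rw [Finset.sum_eq_single (rp H g)]
    · rw [if_pos ((mem_iff H g g).2 rfl)]
    · intro t ht hne
      obtain ⟨g', -, rfl⟩ := Finset.mem_image.1 ht
      rw [if_neg fun h => hne ((mem_iff H g g').1 h)]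
    · intro h
      exfalso
      apply h
      refine Finset.mem_image_of_mem _ (Finset.mem_biUnion.2 ⟨i, Finset.mem_univ i, ?_⟩)
      exact Finsupp.mem_support_iff.2 hg

lemma exists_of_kap {a b : ℕ} (M : Matrix (Fin a) (Fin b) (MonoidAlgebra ℤ H))
    (x : Fin b → MonoidAlgebra ℤ G) (h : ∀ t, ∃ y, y ᵥ* M = fun j => kap H t (x j)) :
    ∃ y, y ᵥ* M.map (incl H) = x := by
  choose y hy using h
  obtain ⟨T, hT⟩ := recon H x
  refine ⟨fun i => ∑ t ∈ T, MonoidAlgebra.single t (1 : ℤ) * incl H (y t i), ?_⟩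
  funext j
  rw [hT j]
  have h1 : ∀ t, kap H t (x j) = ∑ i, y t i * M i j := fun t => (congrFun (hy t) j).symm
  simp only [h1, map_sum, map_mul]
  simp only [Matrix.vecMul, dotProduct, Matrix.map_apply, Finset.sum_mul, Finset.mul_sum]
  rw [Finset.sum_comm]
  refine Finset.sum_congr rfl fun t _ => Finset.sum_congr rfl fun i _ => ?_
  rw [mul_assoc]

lemma ex_succ (X : FinRes H) (i : ℕ) (x : Fin (X.n (i + 1)) → MonoidAlgebra ℤ G) :
    x ᵥ* (X.d i).map (incl H) = 0 ↔ ∃ y, y ᵥ* (X.d (i + 1)).map (incl H) = x := by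
  constructor
  · intro h
    refine exists_of_kap H _ x fun t => (X.exact_succ i _).1 ?_
    rw [← kap_vecMul, h]
    funext j
    simp
  · rintro ⟨y, rfl⟩
    rw [Matrix.vecMul_vecMul, ← Matrix.map_mul, d_mul_d]
    have : (0 : Matrix (Fin (X.n (i + 1 + 1))) (Fin (X.n i)) (MonoidAlgebra ℤ H)).map (incl H) = 0 := by
      ext; simp
    rw [this, Matrix.vecMul_zero]

lemma ex_zero (X : FinRes H) (x : Fin (X.n 0) → MonoidAlgebra ℤ G) :
    (∀ t, eps X (fun j => kap H t (x j)) = 0) ↔ ∃ y, y ᵥ* (X.d 0).map (incl H) = x := by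
  constructor
  · intro h
    exact exists_of_kap H _ x fun t => (X.exact_zero _).1 (h t)
  · rintro ⟨y, rfl⟩ t
    rw [kap_vecMul, eps_d]

lemma kap_single_mem {t g : G} (h : t⁻¹ * g ∈ H) (r : ℤ) :
    kap H t (MonoidAlgebra.single g r) = MonoidAlgebra.single ⟨t⁻¹ * g, h⟩ r := by
  classical
  ext h'
  rw [kap_coeff, MonoidAlgebra.coeff_single, MonoidAlgebra.coeff_single, Finsupp.single_apply,
    Finsupp.single_apply]
  have : g = t * h' ↔ (⟨t⁻¹ * g, h⟩ : H) = h' := by
    rw [Subtype.ext_iff, inv_mul_eq_iff_eq_mul]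
  simp only [this]

lemma kap_single_not {t g : G} (h : t⁻¹ * g ∉ H) (r : ℤ) :
    kap H t (MonoidAlgebra.single g r) = 0 := by
  ext h'
  rw [kap_coeff, MonoidAlgebra.coeff_single, MonoidAlgebra.coeff_zero]
  rw [Finsupp.single_eq_of_ne]
  · rfl
  · intro he
    apply h
    rw [← he, inv_mul_cancel_left]
    exact h'.2

end kap

/-! ### Permutation modules -/

section pm

variable {G : Type} [Group G] {E : Type} [MulAction G E]

/-- the coefficient of `e` -/
def pev (e : E) : PM G E →+ ℤ := (Finsupp.applyAddHom e : (E →₀ ℤ) →+ ℤ)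

lemma pev_ext {m m' : PM G E} (h : ∀ e, pev e m = pev e m') : m = m' := Finsupp.ext h

/-- the element `k [e]` -/
noncomputable def sg (G : Type) [Group G] {E : Type} [MulAction G E] (e : E) (k : ℤ) : PM G E :=
  Finsupp.single e k

lemma single_smul_sg (g : G) (r : ℤ) (e : E) (k : ℤ) :
    (MonoidAlgebra.single g r : MonoidAlgebra ℤ G) • sg G e k = sg G (g • e) (r * k) := by
  have h := pm_single_smul g r (Finsupp.single e k : E →₀ ℤ)
  rw [Finsupp.mapDomain_single, Finsupp.smul_single, smul_eq_mul] at h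
  exact h

lemma pev_sg [DecidableEq E] (e e' : E) (k : ℤ) : pev e' (sg G e k) = if e = e' then k else 0 :=
  Finsupp.single_apply

lemma pm_eval (e : E) (k : ℤ) (x : MonoidAlgebra ℤ G) (t : G) :
    pev (t • e) (x • sg G e k) =
      augm (MulAction.stabilizer G e) (kap (MulAction.stabilizer G e) t x) * k := by
  classical
  refine MonoidAlgebra.induction_linear x ?_ ?_ ?_
  · simp
  · intro a b ha hb
    rw [add_smul, map_add, ha, hb, map_add, map_add, add_mul]
  · intro g r
    rw [single_smul_sg, pev_sg]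
    by_cases h : t⁻¹ * g ∈ MulAction.stabilizer G e
    · rw [kap_single_mem _ h, augm_single, if_pos]
      rw [MulAction.mem_stabilizer_iff, mul_smul, inv_smul_eq_iff] at h
      exact h
    · rw [kap_single_not _ h, map_zero, zero_mul, if_neg]
      rw [MulAction.mem_stabilizer_iff, mul_smul, inv_smul_eq_iff] at h
      exact h

lemma pm_off (e e' : E) (k : ℤ) (x : MonoidAlgebra ℤ G) (h : e' ∉ MulAction.orbit G e) :
    pev e' (x • sg G e k) = 0 := by
  classical
  refine MonoidAlgebra.induction_linear x ?_ ?_ ?_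
  · simp
  · intro a b ha hb
    rw [add_smul, map_add, ha, hb, add_zero]
  · intro g r
    rw [single_smul_sg, pev_sg, if_neg]
    rintro rfl
    exact h ⟨g, rfl⟩

end pm

section main

variable {G : Type} [Group G] {E : Type} [MulAction G E] {c : ℕ} (rep : Fin c → E)
  (X : ∀ a, FinRes (MulAction.stabilizer G (rep a)))

/-- the value of the augmentation -/
lemma sum_eval (hrep : ∀ e : E, ∃! a, e ∈ MulAction.orbit G (rep a))
    (x : (Σ a, Fin ((X a).n 0)) → MonoidAlgebra ℤ G) (a : Fin c) (t : G) :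
    pev (t • rep a) (∑ p : Σ a, Fin ((X a).n 0), x p • sg G (rep p.1) ((X p.1).aug p.2)) =
      eps (X a) (fun j => kap (MulAction.stabilizer G (rep a)) t (x ⟨a, j⟩)) := by
  rw [map_sum, Fintype.sum_sigma, Finset.sum_eq_single a]
  · rw [eps]
    exact Finset.sum_congr rfl fun j _ => pm_eval _ _ _ _
  · intro b _ hb
    refine Finset.sum_eq_zero fun j _ => pm_off _ _ _ _ fun h => hb ?_
    exact (hrep (t • rep a)).unique h ⟨t, rfl⟩
  · intro h
    exact absurd (Finset.mem_univ a) h

end main

end Perm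

open Perm in
theorem exists_perm_res {G : Type} [Group G] {E : Type} [MulAction G E] {c : ℕ} (rep : Fin c → E)
    (hrep : ∀ e : E, ∃! a, e ∈ MulAction.orbit G (rep a))
    (X : ∀ a, FinRes (MulAction.stabilizer G (rep a))) :
    ∃ R : Res G (PM G E), (∀ (S : Type) [Ring S] (φ : MonoidAlgebra ℤ G →+* S) (k : ℕ),
        ExR R φ k ↔ ∀ a, ExAt (X a) (φ.comp (incl (MulAction.stabilizer G (rep a)))) k) ∧
      ∃ L, ∀ j > L, IsEmpty (R.ι j) := by
  classical
  refine ⟨{
    ι := fun i => Σ a, Fin ((X a).n i)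
    fin := fun i => inferInstance
    d := fun i => Matrix.blockDiagonal' fun a => ((X a).d i).map (incl (MulAction.stabilizer G (rep a)))
    aug := fun p => sg G (rep p.1) ((X p.1).aug p.2)
    surj := ?_
    exact_zero := ?_
    exact_succ := ?_ }, ?_, ?_⟩
  · intro m
    refine Finsupp.induction_linear (motive := fun m : PM G E =>
      ∃ x : (Σ a, Fin ((X a).n 0)) → MonoidAlgebra ℤ G,
        ∑ p, x p • sg G (rep p.1) ((X p.1).aug p.2) = m) m ?_ ?_ ?_
    · exact ⟨0, by simp; rfl⟩
    · rintro m m' ⟨x, rfl⟩ ⟨y, rfl⟩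
      refine ⟨x + y, ?_⟩
      simp only [Pi.add_apply, add_smul, Finset.sum_add_distrib]
      rfl
    · intro e r
      obtain ⟨a, ⟨g, hg⟩, -⟩ := hrep e
      choose x0 hx0 using fun b => (X b).surj
      refine ⟨fun p => (if p.1 = a then MonoidAlgebra.single g r else 0) *
        incl (MulAction.stabilizer G (rep p.1)) (x0 p.1 p.2), ?_⟩
      have h1 : sg G e r = (MonoidAlgebra.single g r : MonoidAlgebra ℤ G) • sg G (rep a) 1 := by
        rw [single_smul_sg, mul_one]
        exact congrArg (fun e => sg G e r) hg.symm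
      change _ = sg G e r
      rw [h1]
      apply pev_ext
      intro e'
      obtain ⟨b, ⟨t, rfl⟩, -⟩ := hrep e'
      change pev (t • rep b) _ = pev (t • rep b) _
      rw [sum_eval rep X hrep]
      simp only [kap_mul_incl]
      by_cases hb : b = a
      · subst hb
        rw [pm_eval, mul_one]
        simp only [if_true]
        have h2 := eps_smul (X b) (kap (MulAction.stabilizer G (rep b)) t (MonoidAlgebra.single g r))
          (x0 b)
        have h3 : eps (X b) (x0 b) = 1 := hx0 b
        rw [h3, mul_one] at h2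
        exact h2
      · rw [pm_off]
        · simp [eps, hb]
        · intro h
          exact hb ((hrep (t • rep b)).unique ⟨t, rfl⟩ h)
  · intro x
    rw [exists_blk]
    have h1 : ∀ a, (∃ y, y ᵥ* ((X a).d 0).map (incl (MulAction.stabilizer G (rep a))) =
        fun j => x ⟨a, j⟩) ↔ ∀ t, eps (X a) (fun j => kap _ t (x ⟨a, j⟩)) = 0 :=
      fun a => (ex_zero _ (X a) _).symm
    simp only [h1]
    constructor
    · intro h a t
      rw [← sum_eval rep X hrep, h, map_zero]
    · intro h
      apply pev_ext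
      intro e'
      obtain ⟨b, ⟨t, rfl⟩, -⟩ := hrep e'
      change pev (t • rep b) _ = pev (t • rep b) _
      rw [sum_eval rep X hrep, h, map_zero]
  · intro i x
    rw [exists_blk, blk_eq_zero]
    exact forall_congr' fun a => ex_succ _ (X a) i _
  · intro S _ φ k
    have hm : ∀ i, (Matrix.blockDiagonal' fun a => ((X a).d i).map
        (incl (MulAction.stabilizer G (rep a)))).map φ =
        Matrix.blockDiagonal' fun a => ((X a).d i).map
          (φ.comp (incl (MulAction.stabilizer G (rep a)))) := by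
      intro i
      rw [Matrix.blockDiagonal'_map _ _ (map_zero φ)]
      rfl
    cases k with
    | zero =>
      change (∀ x, ∃ y, y ᵥ* _ = x) ↔ ∀ a, ∀ x, ∃ y, y ᵥ* _ = x
      rw [hm]
      constructor
      · intro h a x
        have h1 := (exists_blk _ _).1 (h (fun p => if hp : p.1 = a then x (hp ▸ p.2) else 0)) a
        simpa using h1
      · intro h x
        exact (exists_blk _ _).2 fun a => h a _
    | succ k =>
      change (∀ x, x ᵥ* _ = 0 → ∃ y, y ᵥ* _ = x) ↔ ∀ a, ∀ x, x ᵥ* _ = 0 → ∃ y, y ᵥ* _ = x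
      rw [hm, hm]
      constructor
      · intro h a x hx
        have h1 := (exists_blk _ _).1 (h (fun p => if hp : p.1 = a then x (hp ▸ p.2) else 0) (by
          rw [blk_eq_zero]
          intro b
          by_cases hb : b = a
          · subst hb
            simpa using hx
          · simp only [hb, dite_false]
            exact Matrix.zero_vecMul _)) a
        simpa using h1
      · intro h x hx
        rw [blk_eq_zero] at hx
        exact (exists_blk _ _).2 fun a => h a _ (hx a)
  · refine ⟨∑ a, (X a).len, fun j hj => ⟨fun p => ?_⟩⟩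
    have h1 : (X p.1).len ≤ ∑ a, (X a).len :=
      Finset.single_le_sum (f := fun a => (X a).len) (fun _ _ => Nat.zero_le _) (Finset.mem_univ p.1)
    have h2 := (X p.1).n_eq_zero j (by omega)
    exact (Fin.cast h2 p.2).elim0

end Pool.Agent.TH38.CX
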