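import Pool.Agent.TH38.CX.Syz
import Pool.Agent.TH38.CX.Perm
import Pool.Agent.TH38.CX.Cond

/-!
The homology of a group with coefficients in its reduced `C*`-algebra, from an action on an
acyclic complex.
-/

set_option autoImplicit false
set_option linter.unusedSectionVars false

open scoped Matrix

namespace Pool.Agent.TH38.CX

open Pool.Agent.H919R4.ZS
open Pool.Agent.TH38.ZT (ExAt exAt_iff ex_comp ex_indep)

/-- The homology of the group `H` with coefficients in `C*_r(H)` vanishes in all degrees at most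
`k`, or `k` is greater than the length of the resolution `X` of `H`. -/
def Acyc {H : Type} [Group H] (X : FinRes H) (k : ℕ) : Prop :=
  X.len < k ∨ ∀ j ≤ k, Subsingleton (X.homology (toRed H) j)

noncomputable section

variable {G : Type} [Group G]

section levels

variable {S : Type} [Ring S] (φ : MonoidAlgebra ℤ G →+* S) (N i₀ : ℕ)

/-- the condition for the syzygies -/
def QQ (i : ℕ) {M : Type} [AddCommGroup M] [Module (MonoidAlgebra ℤ G) M] (R : Res G M) : Prop :=
  (i₀ < i → i ≤ N + 1 → ExR R φ (N + 1 - i)) ∧ (i ≤ i₀ → ¬ ExR R φ (N - i))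

/-- the condition for the terms of the complex -/
def HM (i : ℕ) {M : Type} [AddCommGroup M] [Module (MonoidAlgebra ℤ G) M] (R : Res G M) : Prop :=
  (i₀ < i → i ≤ N + 1 → ExR R φ (N + 1 - i)) ∧ (i = i₀ → ¬ ExR R φ (N - i)) ∧
    (i < i₀ → ExR R φ (N - 1 - i))

/-- the resolution is finite -/
def Bdd {M : Type} [AddCommGroup M] [Module (MonoidAlgebra ℤ G) M] (R : Res G M) : Prop :=
  ∃ L, ∀ l > L, IsEmpty (R.ι l)

variable {M : Type} [AddCommGroup M] [Module (MonoidAlgebra ℤ G) M]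
variable {M' : Type} [AddCommGroup M'] [Module (MonoidAlgebra ℤ G) M']
variable {M'' : Type} [AddCommGroup M''] [Module (MonoidAlgebra ℤ G) M'']

theorem step (h0 : i₀ ≤ N) (i : ℕ) (X' : Res G M') (X : Res G M)
    (f : M' →ₗ[MonoidAlgebra ℤ G] M) (g : M →ₗ[MonoidAlgebra ℤ G] M'')
    (hf : Function.Injective f) (hg : Function.Surjective g)
    (hfg : ∀ m, g m = 0 ↔ ∃ m', f m' = m) (hQ : QQ φ N i₀ (i + 1) X') (hM : HM φ N i₀ i X)
    (hb' : Bdd X') (hb : Bdd X) : ∃ R : Res G M'', QQ φ N i₀ i R ∧ Bdd R := by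
  obtain ⟨F, hF0, hF⟩ := exists_chain X' X f
  refine ⟨cone X' X f g hf hg hfg F hF0 hF, ⟨?_, ?_⟩, ?_⟩
  · intro h1 h2
    have h3 := hM.1 h1 h2
    rcases Nat.eq_zero_or_pos (N + 1 - i) with hz | hz
    · rw [hz] at h3 ⊢
      exact les3_zero X' X f g hf hg hfg F hF0 hF φ h3
    · obtain ⟨k, hk⟩ : ∃ k, N + 1 - i = k + 1 := ⟨N + 1 - i - 1, by omega⟩
      have h4 := hQ.1 (by omega) (by omega)
      have h5 : N + 1 - (i + 1) = k := by omega
      rw [h5] at h4
      rw [hk] at h3 ⊢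
      exact les3 X' X f g hf hg hfg F hF0 hF φ k h3 h4
  · intro h1 h2
    rcases Nat.eq_or_lt_of_le h1 with h3 | h3
    · have h4 := hQ.1 (by omega) (by omega)
      have h5 : N + 1 - (i + 1) = N - i := by omega
      rw [h5] at h4
      exact hM.2.1 h3 (les2 X' X f g hf hg hfg F hF0 hF φ (N - i) h2 h4)
    · have h4 := hM.2.2 h3
      have h5 : N - i = (N - 1 - i) + 1 := by omega
      rw [h5] at h2
      have h6 := les1 X' X f g hf hg hfg F hF0 hF φ (N - 1 - i) h2 h4
      have h7 := hQ.2 (by omega)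
      have h8 : N - (i + 1) = N - 1 - i := by omega
      rw [h8] at h7
      exact h7 h6
  · obtain ⟨L', hL'⟩ := hb'
    obtain ⟨L, hL⟩ := hb
    refine ⟨L' + L + 1, fun l hl => ?_⟩
    cases l with
    | zero => omega
    | succ l =>
      have e1 := hL' l (by omega)
      have e2 := hL (l + 1) (by omega)
      change IsEmpty (X'.ι l ⊕ X.ι (l + 1))
      exact isEmpty_sum.2 ⟨e1, e2⟩

/-- the resolution of the zero module -/
def zeroRes (M : Type) [AddCommGroup M] [Module (MonoidAlgebra ℤ G) M] [Subsingleton M] :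
    Res G M where
  ι := fun _ => Empty
  fin := fun _ => inferInstance
  d := fun _ a => a.elim
  aug := fun a => a.elim
  surj := fun _ => ⟨fun a => a.elim, Subsingleton.elim _ _⟩
  exact_zero := fun _ => ⟨fun _ => ⟨fun a => a.elim, funext fun a => a.elim⟩,
    fun _ => Subsingleton.elim _ _⟩
  exact_succ := fun _ _ => ⟨fun _ => ⟨fun a => a.elim, funext fun a => a.elim⟩,
    fun _ => funext fun a => a.elim⟩

lemma exR_zeroRes (M : Type) [AddCommGroup M] [Module (MonoidAlgebra ℤ G) M] [Subsingleton M]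
    (k : ℕ) : ExR (zeroRes (G := G) M) φ k := by
  cases k with
  | zero => exact fun x => ⟨fun a => Empty.elim a, funext fun a => Empty.elim a⟩
  | succ k => exact fun x _ => ⟨fun a => Empty.elim a, funext fun a => Empty.elim a⟩

/-- the boundary maps as linear maps -/
def bdl (Y : AcyclicGComplex G) (i : ℕ) :
    PM G (Y.E (i + 1)) →ₗ[MonoidAlgebra ℤ G] PM G (Y.E i) :=
  linOfEquiv (Y.bd i) (Y.bd_smul i)

theorem main_ind (Y : AcyclicGComplex G) (h0 : i₀ ≤ N) (hlen : i₀ ≤ Y.len)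
    (RM : ∀ i, Res G (PM G (Y.E i))) (hRM : ∀ i, HM φ N i₀ i (RM i)) (hb : ∀ i, Bdd (RM i)) :
    ∀ j i, i + j = Y.len → ∃ R : Res G (LinearMap.range (bdl Y i)),
      QQ φ N i₀ (i + 1) R ∧ Bdd R := by
  intro j
  induction j with
  | zero =>
    intro i hi
    have hE : IsEmpty (Y.E (i + 1)) := Y.isEmpty _ (by omega)
    have hs : Subsingleton (PM G (Y.E (i + 1))) :=
      inferInstanceAs (Subsingleton (Y.E (i + 1) →₀ ℤ))
    have hs2 : Subsingleton (LinearMap.range (bdl Y i)) := by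
      refine ⟨fun a b => ?_⟩
      obtain ⟨a, x, rfl⟩ := a
      obtain ⟨b, y, rfl⟩ := b
      exact Subtype.ext (by rw [Subsingleton.elim x y])
    exact ⟨zeroRes _, ⟨fun _ _ => exR_zeroRes φ _ _, fun h => by omega⟩,
      0, fun _ _ => inferInstanceAs (IsEmpty Empty)⟩
  | succ j ih =>
    intro i hi
    obtain ⟨R', hQ', hb'⟩ := ih (i + 1) (by omega)
    refine step φ N i₀ h0 (i + 1) R' (RM (i + 1)) (LinearMap.range (bdl Y (i + 1))).subtype
      (bdl Y i).rangeRestrict (Submodule.injective_subtype _) (LinearMap.surjective_rangeRestrict _)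
      ?_ hQ' (hRM (i + 1)) hb' (hb (i + 1))
    intro m
    constructor
    · intro hm
      have h1 : bdl Y i m = 0 := congrArg Subtype.val hm
      obtain ⟨y, hy⟩ := (Y.exact_succ i m).1 h1
      exact ⟨⟨m, y, hy⟩, rfl⟩
    · rintro ⟨⟨m', y, hy⟩, rfl⟩
      apply Subtype.ext
      exact (Y.exact_succ i m').2 ⟨y, hy⟩

theorem main_res (Y : AcyclicGComplex G) (h0 : i₀ ≤ N) (hlen : i₀ ≤ Y.len)
    (RM : ∀ i, Res G (PM G (Y.E i))) (hRM : ∀ i, HM φ N i₀ i (RM i)) (hb : ∀ i, Bdd (RM i)) :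
    ∃ R : Res G (Triv G), ¬ ExR R φ N ∧ Bdd R := by
  obtain ⟨R', hQ', hb'⟩ := main_ind φ N i₀ Y h0 hlen RM hRM hb Y.len 0 (by omega)
  obtain ⟨e0⟩ := Y.nonempty
  obtain ⟨R, hR, hbR⟩ := step φ N i₀ h0 0 R' (RM 0) (LinearMap.range (bdl Y 0)).subtype
    (sumMap (Y.E 0)) (Submodule.injective_subtype _) (by
      intro m
      refine ⟨ofF (Finsupp.single e0 (tv m)), ?_⟩
      change Finsupp.sum (Finsupp.single e0 (tv m)) (fun _ r => r) = tv m
      exact Finsupp.sum_single_index rfl) (by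
      intro m
      constructor
      · intro hm
        obtain ⟨y, hy⟩ := (Y.exact_zero m).1 hm
        exact ⟨⟨m, y, hy⟩, rfl⟩
      · rintro ⟨⟨m', y, hy⟩, rfl⟩
        exact (Y.exact_zero m').2 ⟨y, hy⟩) hQ' (hRM 0) hb' (hb 0)
  exact ⟨R, hR.2 (Nat.zero_le _), hbR⟩

end levels

/-! ### the reduced `C*`-algebras of subgroups -/

lemma exAt_of_len {H : Type} [Group H] (X : FinRes H) {S : Type} [Ring S]
    (φ : MonoidAlgebra ℤ H →+* S) (k : ℕ) (h : X.len < k) : ExAt X φ k := by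
  cases k with
  | zero => omega
  | succ i =>
    have h1 : IsEmpty (Fin (X.n (i + 1))) := by
      rw [X.n_eq_zero (i + 1) h]
      infer_instance
    exact fun x _ => ⟨0, funext fun j => h1.elim j⟩

lemma ex_big {H : Subgroup G} (X : FinRes H) (k : ℕ) (h : Acyc X k) :
    ExAt X ((toRed G).comp (incl H)) k := by
  rcases h with h | h
  · exact exAt_of_len X _ k h
  · obtain ⟨ψ, e, h1, -, -⟩ := exists_cond H
    rw [← h1]
    exact ex_comp X (toRed H) ψ k (fun j hj => (exAt_iff X _ j).2 (h j hj)) k le_rfl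

lemma e_vecMul {H : Subgroup G} (e : RedC G →+ RedC H)
    (he : ∀ (x : RedC G) (a : MonoidAlgebra ℤ H), e (x * toRed G (incl H a)) = e x * toRed H a)
    {a b : ℕ} (y : Fin a → RedC G) (D : Matrix (Fin a) (Fin b) (MonoidAlgebra ℤ H)) (j : Fin b) :
    e ((y ᵥ* D.map ((toRed G).comp (incl H))) j) = ((fun k => e (y k)) ᵥ* D.map (toRed H)) j := by
  simp only [Matrix.vecMul, dotProduct, map_sum, Matrix.map_apply]
  exact Finset.sum_congr rfl fun k _ => he _ _

lemma ex_small {H : Subgroup G} (X : FinRes H) (k : ℕ)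
    (h : ExAt X ((toRed G).comp (incl H)) k) : ExAt X (toRed H) k := by
  obtain ⟨ψ, e, h1, h2, h3⟩ := exists_cond H
  cases k with
  | zero =>
    intro x
    obtain ⟨y, hy⟩ := h (fun j => ψ (x j))
    refine ⟨fun j => e (y j), funext fun j => ?_⟩
    rw [← e_vecMul e h3, hy, h2]
  | succ k =>
    intro x hx
    obtain ⟨y, hy⟩ := h (fun j => ψ (x j)) (by
      funext j
      have h4 : ((fun j => ψ (x j)) ᵥ* (X.d k).map ((toRed G).comp (incl H))) j =
          ψ ((x ᵥ* (X.d k).map (toRed H)) j) := by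
        rw [← h1]
        simp only [Matrix.vecMul, dotProduct, map_sum, Matrix.map_apply, RingHom.comp_apply,
          map_mul]
        rfl
      rw [h4, hx]
      exact map_zero ψ)
    refine ⟨fun j => e (y j), funext fun j => ?_⟩
    rw [← e_vecMul e h3, hy, h2]

/-- main theorem -/
theorem main (Y : AcyclicGComplex G) (c : ℕ → ℕ) (rep : ∀ i, Fin (c i) → Y.E i)
    (hrep : ∀ i (e : Y.E i), ∃! a, e ∈ MulAction.orbit G (rep i a))
    (X : ∀ i a, FinRes (MulAction.stabilizer G (rep i a)))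
    (N i₀ : ℕ) (h0 : i₀ ≤ N) (a₀ : Fin (c i₀))
    (h1 : Nontrivial ((X i₀ a₀).homology (toRed _) (N - i₀)))
    (h2 : ∀ i < i₀, ∀ a, Acyc (X i a) (N - 1 - i))
    (h3 : ∀ i > i₀, i ≤ N + 1 → ∀ a, Acyc (X i a) (N + 1 - i)) :
    Nonempty (FinRes G) ∧ ∀ X' : FinRes G, Nontrivial (X'.homology (toRed G) N) := by
  choose RM hRM hb using fun i => exists_perm_res (rep i) (hrep i) (X i)
  have hlen : i₀ ≤ Y.len := by
    by_contra hcon
    exact (Y.isEmpty i₀ (by omega)).false (rep i₀ a₀)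
  obtain ⟨R, hR, L, hL⟩ := main_res (toRed G) N i₀ Y h0 hlen RM (by
    intro i
    refine ⟨fun e1 e2 => ?_, fun e1 => ?_, fun e1 => ?_⟩
    · exact (hRM i (RedC G) (toRed G) _).2 fun a => ex_big (X i a) _ (h3 i e1 e2 a)
    · subst e1
      intro e2
      have e3 := (hRM i (RedC G) (toRed G) _).1 e2 a₀
      have e4 := (exAt_iff _ _ _).1 (ex_small _ _ e3)
      exact not_subsingleton_iff_nontrivial.2 h1 e4
    · exact (hRM i (RedC G) (toRed G) _).2 fun a => ex_big (X i a) _ (h2 i e1 a)) hb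
  refine ⟨⟨toFin R L hL⟩, fun X' => ?_⟩
  rw [← not_subsingleton_iff_nontrivial]
  intro hs
  exact hR (exR_of_toFin R L hL (toRed G) N
    (ex_indep X' (toFin R L hL) (toRed G) N ((exAt_iff _ _ _).2 hs)))

end

end Pool.Agent.TH38.CX
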