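import Pool.Agent.TH38.CX.Cone

/-!
Acyclic complexes of permutation modules and their syzygies.
-/

set_option autoImplicit false
set_option linter.unusedSectionVars false

open scoped Matrix

namespace Pool.Agent.TH38.CX

open Pool.Agent.H919R4.ZS
open Pool.Agent.TH38.ZT (ExAt exAt_iff ex_comp ex_indep)

/-- The cellular chain complex of an acyclic (for instance contractible) CW complex `Y` of
dimension at most `len` on which the group `G` acts by permuting the cells, such that an element
which stabilises a cell fixes it pointwise: `E i` is the `G`-set of `i`-cells (with orientations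
chosen in a `G`-invariant way), `bd` are the cellular boundary maps. -/
structure AcyclicGComplex (G : Type) [Group G] where
  /-- the `i`-cells -/
  E : ℕ → Type
  /-- the action of `G` on the `i`-cells -/
  act : ∀ i, MulAction G (E i)
  /-- the cellular boundary map `ℤ[E (i + 1)] → ℤ[E i]` -/
  bd : ∀ i, (E (i + 1) →₀ ℤ) →+ (E i →₀ ℤ)
  /-- the boundary maps commute with the action -/
  bd_smul : ∀ (i : ℕ) (g : G) (x : E (i + 1) →₀ ℤ),
    bd i (x.mapDomain (fun e => g • e)) = (bd i x).mapDomain (fun e => g • e)
  /-- the dimension -/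
  len : ℕ
  /-- there are no cells of dimension greater than `len` -/
  isEmpty : ∀ i, len < i → IsEmpty (E i)
  /-- the complex is not empty -/
  nonempty : Nonempty (E 0)
  /-- the reduced homology of degree `0` vanishes -/
  exact_zero : ∀ x : E 0 →₀ ℤ, x.sum (fun _ r => r) = 0 ↔ ∃ y, bd 0 y = x
  /-- the homology of positive degree vanishes -/
  exact_succ : ∀ (i : ℕ) (x : E (i + 1) →₀ ℤ), bd i x = 0 ↔ ∃ y, bd (i + 1) y = x

instance {G : Type} [Group G] (Y : AcyclicGComplex G) (i : ℕ) : MulAction G (Y.E i) := Y.act i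

noncomputable section

variable {G : Type} [Group G]

/-- the trivial module `ℤ` -/
def Triv (G : Type) [Group G] : Type := ℤ

instance : AddCommGroup (Triv G) := inferInstanceAs (AddCommGroup ℤ)

instance : Module (MonoidAlgebra ℤ G) (Triv G) := Module.compHom ℤ (augm G)

lemma triv_smul (a : MonoidAlgebra ℤ G) (m : ℤ) :
    a • (show Triv G from m) = (show Triv G from augm G a * m) := rfl

/-- the underlying finitely supported function -/
def toF {A : Type} [MulAction G A] (m : PM G A) : A →₀ ℤ := m

/-- the element of the permutation module given by a function -/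
def ofF {A : Type} [MulAction G A] (m : A →₀ ℤ) : PM G A := m

lemma toF_smul {A : Type} [MulAction G A] (g : G) (r : ℤ) (m : PM G A) :
    toF ((MonoidAlgebra.single g r : MonoidAlgebra ℤ G) • m) =
      r • Finsupp.mapDomain (fun e => g • e) (toF m) := pm_single_smul g r m

lemma toF_add {A : Type} [MulAction G A] (m n : PM G A) : toF (m + n) = toF m + toF n := rfl

lemma toF_zero {A : Type} [MulAction G A] : toF (0 : PM G A) = 0 := rfl

lemma toF_inj {A : Type} [MulAction G A] {m n : PM G A} (h : toF m = toF n) : m = n := h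

/-- additive equivariant maps of permutation modules are linear -/
def linOfEquiv {A B : Type} [MulAction G A] [MulAction G B] (f : (A →₀ ℤ) →+ (B →₀ ℤ))
    (hf : ∀ (g : G) (x : A →₀ ℤ), f (x.mapDomain (fun e => g • e)) =
      (f x).mapDomain (fun e => g • e)) : PM G A →ₗ[MonoidAlgebra ℤ G] PM G B where
  toFun := fun x => ofF (f (toF x))
  map_add' := fun x y => f.map_add _ _
  map_smul' := by
    intro a x
    apply toF_inj
    change f (toF (a • x)) = toF (a • ofF (f (toF x)))
    refine MonoidAlgebra.induction_linear a ?_ ?_ ?_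
    · rw [zero_smul, zero_smul, toF_zero, toF_zero, map_zero]
    · intro u v hu hv
      rw [add_smul, add_smul, toF_add, toF_add, map_add, hu, hv]
    · intro g r
      rw [toF_smul, toF_smul, map_zsmul, hf]
      rfl

/-- the sum of the coefficients -/
def sumMap (A : Type) [MulAction G A] : PM G A →ₗ[MonoidAlgebra ℤ G] Triv G where
  toFun := fun x => Finsupp.sum (toF x) (fun _ r => r)
  map_add' := fun x y => Finsupp.sum_add_index' (fun _ => rfl) (fun _ _ _ => rfl)
  map_smul' := by
    intro a x
    change Finsupp.sum (toF (a • x)) (fun _ r => r) = augm G a * Finsupp.sum (toF x) (fun _ r => r)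
    refine MonoidAlgebra.induction_linear a ?_ ?_ ?_
    · rw [zero_smul, toF_zero, map_zero, zero_mul]; rfl
    · intro u v hu hv
      rw [add_smul, toF_add, map_add, add_mul, ← hu, ← hv]
      exact Finsupp.sum_add_index' (fun _ => rfl) (fun _ _ _ => rfl)
    · intro g r
      rw [toF_smul, augm_single]
      have h1 : (Finsupp.mapDomain (fun e => g • e) (toF x)).sum (fun _ r => r) =
          Finsupp.sum (toF x) (fun _ r => r) :=
        Finsupp.sum_mapDomain_index (fun _ => rfl) (fun _ _ _ => rfl)
      rw [← h1, Finsupp.sum_smul_index (fun _ => rfl), Finsupp.mul_sum]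

section conv

/-- the underlying integer -/
def tv (m : Triv G) : ℤ := m

/-- the element `1` -/
def tone : Triv G := (1 : ℤ)

/-- conversion to a finite free resolution of the trivial module -/
def toFin (R : Res G (Triv G)) (L : ℕ) (hL : ∀ j > L, IsEmpty (R.ι j)) : FinRes G where
  len := L
  n := fun i => Fintype.card (R.ι i)
  d := fun i => (R.d i).submatrix (Fintype.equivFin (R.ι (i + 1))).symm
    (Fintype.equivFin (R.ι i)).symm
  aug := fun j => tv (R.aug ((Fintype.equivFin (R.ι 0)).symm j))
  n_eq_zero := fun i hi => Fintype.card_eq_zero_iff.2 (hL i hi)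
  surj := by
    obtain ⟨x, hx⟩ := R.surj tone
    refine ⟨x ∘ (Fintype.equivFin (R.ι 0)).symm, ?_⟩
    exact ((Fintype.equivFin (R.ι 0)).symm.sum_comp (fun j => x j • R.aug j)).trans hx
  exact_zero := by
    intro x
    have h := R.exact_zero (x ∘ (Fintype.equivFin (R.ι 0)))
    have h1 : (∑ j, (x ∘ (Fintype.equivFin (R.ι 0))) j • R.aug j) =
        ∑ j, augm G (x j) * tv (R.aug ((Fintype.equivFin (R.ι 0)).symm j)) := by
      rw [← (Fintype.equivFin (R.ι 0)).symm.sum_comp]
      refine Finset.sum_congr rfl fun j _ => ?_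
      rw [Function.comp_apply, Equiv.apply_symm_apply]
      rfl
    rw [← h1]
    refine h.trans ⟨?_, ?_⟩
    · rintro ⟨y, hy⟩
      refine ⟨y ∘ (Fintype.equivFin (R.ι 1)).symm, ?_⟩
      rw [Matrix.submatrix_vecMul_equiv]
      have : (y ∘ (Fintype.equivFin (R.ι 1)).symm) ∘ (Fintype.equivFin (R.ι (0 + 1))).symm.symm = y := by
        funext j; simp
      rw [this, hy]
      funext j; simp
    · rintro ⟨y, hy⟩
      refine ⟨y ∘ (Fintype.equivFin (R.ι 1)), ?_⟩
      rw [Matrix.submatrix_vecMul_equiv] at hy
      rw [← hy]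
      funext j; simp
  exact_succ := by
    intro i x
    have h := R.exact_succ i (x ∘ (Fintype.equivFin (R.ι (i + 1))))
    have h1 : x ᵥ* (R.d i).submatrix (Fintype.equivFin (R.ι (i + 1))).symm
        (Fintype.equivFin (R.ι i)).symm = 0 ↔
        (x ∘ (Fintype.equivFin (R.ι (i + 1)))) ᵥ* R.d i = 0 := by
      rw [Matrix.submatrix_vecMul_equiv]
      constructor
      · intro h
        funext j
        have := congrFun h (Fintype.equivFin (R.ι i) j)
        simpa using this
      · intro h
        funext j
        have := congrFun h ((Fintype.equivFin (R.ι i)).symm j)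
        simpa using this
    rw [h1]
    refine h.trans ⟨?_, ?_⟩
    · rintro ⟨y, hy⟩
      refine ⟨y ∘ (Fintype.equivFin (R.ι (i + 1 + 1))).symm, ?_⟩
      rw [Matrix.submatrix_vecMul_equiv]
      have : (y ∘ (Fintype.equivFin (R.ι (i + 1 + 1))).symm) ∘
          (Fintype.equivFin (R.ι (i + 1 + 1))).symm.symm = y := by
        funext j; simp
      rw [this, hy]
      funext j; simp
    · rintro ⟨y, hy⟩
      refine ⟨y ∘ (Fintype.equivFin (R.ι (i + 1 + 1))), ?_⟩
      rw [Matrix.submatrix_vecMul_equiv] at hy
      rw [← hy]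
      funext j; simp

lemma exR_of_toFin (R : Res G (Triv G)) (L : ℕ) (hL : ∀ j > L, IsEmpty (R.ι j)) {S : Type}
    [Ring S] (φ : MonoidAlgebra ℤ G →+* S) (k : ℕ) (h : ExAt (toFin R L hL) φ k) : ExR R φ k := by
  cases k with
  | zero =>
    intro x
    obtain ⟨y, hy⟩ : ∃ y : Fin (Fintype.card (R.ι (0 + 1))) → S,
        y ᵥ* ((R.d 0).map φ).submatrix (Fintype.equivFin (R.ι (0 + 1))).symm
        (Fintype.equivFin (R.ι 0)).symm = (x ∘ (Fintype.equivFin (R.ι 0)).symm) :=
      h (x ∘ (Fintype.equivFin (R.ι 0)).symm)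
    refine ⟨y ∘ (Fintype.equivFin (R.ι (0 + 1))), ?_⟩
    rw [Matrix.submatrix_vecMul_equiv] at hy
    funext j
    have := congrFun hy (Fintype.equivFin (R.ι 0) j)
    simpa using this
  | succ i =>
    intro x hx
    obtain ⟨y, hy⟩ : ∃ y : Fin (Fintype.card (R.ι (i + 1 + 1))) → S,
        y ᵥ* ((R.d (i + 1)).map φ).submatrix (Fintype.equivFin (R.ι (i + 1 + 1))).symm
        (Fintype.equivFin (R.ι (i + 1))).symm = (x ∘ (Fintype.equivFin (R.ι (i + 1))).symm) :=
      h (x ∘ (Fintype.equivFin (R.ι (i + 1))).symm) (by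
      change (x ∘ (Fintype.equivFin (R.ι (i + 1))).symm) ᵥ*
        ((R.d i).map φ).submatrix (Fintype.equivFin (R.ι (i + 1))).symm
        (Fintype.equivFin (R.ι i)).symm = 0
      rw [Matrix.submatrix_vecMul_equiv]
      have : (x ∘ (Fintype.equivFin (R.ι (i + 1))).symm) ∘
          (Fintype.equivFin (R.ι (i + 1))).symm.symm = x := by
        funext j; simp
      rw [this, hx]
      rfl)
    refine ⟨y ∘ (Fintype.equivFin (R.ι (i + 1 + 1))), ?_⟩
    rw [Matrix.submatrix_vecMul_equiv] at hy
    funext j
    have := congrFun hy (Fintype.equivFin (R.ι (i + 1)) j)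
    simpa using this

end conv

end

end Pool.Agent.TH38.CX
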